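import Pool.Agent.X91.KT.LB4

set_option autoImplicit false

/-!
# MP_5168f5: the logarithmic loss in the Kakeya maximal estimates: `(log (1/δ))^(n-1)` for all `p ≥ n`

For every `n ≥ 2`, with constants that depend on `n` only, and for all `0 < δ < 1`:

* there is a compact set of measure at most `C (1 + log (1/δ))^(-(n-1))` that contains a `δ`-tube of
  length one in EVERY direction (the product of a planar Besicovitch set with a cube gives only
  `(1 + log (1/δ))^(-1)`);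
* hence for every exponent `p < ∞` the best constant `K` in `‖f*_δ‖_p^p ≤ K ‖f‖_p^p` is at least
  `c (1 + log (1/δ))^(n-1)` (for `p > n` the classical examples give only the first power of the
  logarithm, for `p = n` the function `1/|x|` gives this lower bound);
* this order is exact, for every `p` in `[n, ∞)`, for the products of arbitrary planar families of
  lines: the lines `{(β_1(v_1) + s v_1, ..., β_{n-1}(v_{n-1}) + s v_{n-1}, s)}` with directions
  `(v, 1)`, `|v| ≤ 1`, where the `β_i : ℝ → ℝ` are arbitrary measurable functions.  The best constant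
  of the maximal estimate over all these families lies between `c (1 + log (1/δ))^(n-1)` and
  `C (1 + log (1/δ))^(n-1)`.
-/

open MeasureTheory Set ENNReal NNReal Metric

namespace Pool.Agent.Results.MP_5168f5_an.LogarithmicLoss

/-- The closed cylinder of length `1` and radius `δ` with centre `a` and axis direction `e`. -/
def tube {n : ℕ} (δ : ℝ) (a e : EuclideanSpace ℝ (Fin n)) : Set (EuclideanSpace ℝ (Fin n)) :=
  {y | |inner ℝ (y - a) e| ≤ 1 / 2 ∧ ‖(y - a) - (inner ℝ (y - a) e) • e‖ ≤ δ}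

/-- The Kakeya maximal function. -/
noncomputable def kakeyaMax {n : ℕ} (δ : ℝ) (f : EuclideanSpace ℝ (Fin n) → ℝ)
    (e : EuclideanSpace ℝ (Fin n)) : ℝ≥0∞ :=
  ⨆ a : EuclideanSpace ℝ (Fin n), (volume (tube δ a e))⁻¹ * ∫⁻ y in tube δ a e, ‖f y‖ₑ

/-- Surface measure of the unit sphere. -/
noncomputable abbrev surf (n : ℕ) : Measure (sphere (0 : EuclideanSpace ℝ (Fin n)) 1) :=
  (volume : Measure (EuclideanSpace ℝ (Fin n))).toSphere

/-- There is a compact set of measure at most `V` that contains a `δ`-tube in every direction. -/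
def SmallUnion (n : ℕ) (δ V : ℝ) : Prop :=
  ∃ E : Set (EuclideanSpace ℝ (Fin n)), IsCompact E ∧ volume E ≤ ENNReal.ofReal V ∧
    ∀ e : EuclideanSpace ℝ (Fin n), ‖e‖ = 1 → ∃ a, tube δ a e ⊆ E

/-- `K` is a constant for the Kakeya maximal estimate in `L^p(ℝ^n)`, for the width `δ`. -/
def MaximalBound (n : ℕ) (p δ : ℝ) (K : ℝ≥0∞) : Prop :=
  ∀ f : EuclideanSpace ℝ (Fin n) → ℝ, AEMeasurable f volume →
    ∫⁻ e, kakeyaMax δ f e ^ p ∂(surf n) ≤ K * ∫⁻ y, ‖f y‖ₑ ^ p

/-- Euclidean space `ℝ^d`. -/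
abbrev Vec (d : ℕ) : Type := EuclideanSpace ℝ (Fin d)

/-- Euclidean space `ℝ^{d+1}`, written as `ℝ^d × ℝ` with the Euclidean norm. -/
abbrev Space (d : ℕ) : Type := WithLp 2 (Vec d × ℝ)

/-- The unit vector `(v, 1)/√(1+|v|²)`. -/
noncomputable def dir {d : ℕ} (v : Vec d) : Space d :=
  (√(1 + ‖v‖ ^ 2))⁻¹ • WithLp.toLp 2 (v, (1:ℝ))

/-- The closed tube of length `1` and radius `δ` with centre `a` and axis direction `e`. -/
def lineTube {d : ℕ} (δ : ℝ) (e a : Space d) : Set (Space d) :=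
  {y | |inner ℝ (y - a) e| ≤ 1 / 2 ∧ ‖(y - a) - (inner ℝ (y - a) e : ℝ) • e‖ ≤ δ}

/-- The point of height `s` on the line number `v` of the product of the planar families `β i`. -/
noncomputable def linePt {d : ℕ} (β : Fin d → ℝ → ℝ) (v : Vec d) (s : ℝ) : Space d :=
  WithLp.toLp 2 ((WithLp.toLp 2 fun i => β i (v i)) + s • v, s)

/-- Supremum of the averages of `|f|` over the `δ`-tubes with axis on the line number `v`. -/
noncomputable def lineMax {d : ℕ} (δ : ℝ) (β : Fin d → ℝ → ℝ) (f : Space d → ℝ) (v : Vec d) :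
    ℝ≥0∞ :=
  ⨆ s : ℝ, (volume (lineTube δ (dir v) (linePt β v s)))⁻¹ *
    ∫⁻ y in lineTube δ (dir v) (linePt β v s), ‖f y‖ₑ

/-- `K` is a constant for the maximal estimates in `L^p(ℝ^{d+1})`, for the width `δ`, of all the
products of measurable planar families of lines. -/
def ProductBound (d : ℕ) (p δ : ℝ) (K : ℝ≥0∞) : Prop :=
  ∀ β : Fin d → ℝ → ℝ, (∀ i, Measurable (β i)) → ∀ f : Space d → ℝ, Measurable f →
    ∫⁻ v in closedBall (0 : Vec d) 1, lineMax δ β f v ^ p ≤ K * ∫⁻ y, ‖f y‖ₑ ^ p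

theorem ind_pow {X : Type*} [MeasurableSpace X] {μ : Measure X} {E : Set X} (hE : MeasurableSet E)
    {p : ℝ} (hp : 0 < p) : ∫⁻ y, ‖E.indicator (fun _ => (1 : ℝ)) y‖ₑ ^ p ∂μ = μ E := by
  have : ∀ y, ‖E.indicator (fun _ => (1 : ℝ)) y‖ₑ ^ p = E.indicator 1 y := by
    intro y
    by_cases hy : y ∈ E
    · simp [hy]
    · simp [hy, hp]
  simp only [this]
  exact lintegral_indicator_one hE

theorem ind_int {X : Type*} [MeasurableSpace X] {μ : Measure X} {E T : Set X} (hT : T ⊆ E)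
    (hTm : MeasurableSet T) (h0 : μ T ≠ 0) (h1 : μ T ≠ ∞) :
    (μ T)⁻¹ * ∫⁻ y in T, ‖E.indicator (fun _ => (1 : ℝ)) y‖ₑ ∂μ = 1 := by
  have : ∫⁻ y in T, ‖E.indicator (fun _ => (1 : ℝ)) y‖ₑ ∂μ = ∫⁻ y in T, 1 ∂μ := by
    refine setLIntegral_congr_fun hTm fun y hy => ?_
    simp [hT hy]
  rw [this, setLIntegral_one, ENNReal.inv_mul_cancel h0 h1]

theorem vol_tube' {d : ℕ} {δ : ℝ} (hδ : 0 < δ) (hδ1 : δ < 1)
    (a e : EuclideanSpace ℝ (Fin (d + 1))) (he : ‖e‖ = 1) :
    volume (tube δ a e) ≠ 0 ∧ volume (tube δ a e) ≠ ∞ := by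
  obtain ⟨κ, hκ, hV⟩ := Pool.Agent.W131.HM.VOL d
  obtain ⟨h1, h2⟩ := hV a e δ he hδ hδ1.le
  refine ⟨?_, h2⟩
  intro h
  rw [show Pool.Agent.W46.KK.tube δ a e = tube δ a e from rfl, h, nonpos_iff_eq_zero,
    ENNReal.ofReal_eq_zero] at h1
  have : 0 < κ * δ ^ d := by positivity
  linarith

theorem tube_meas {n : ℕ} (δ : ℝ) (a e : EuclideanSpace ℝ (Fin n)) : MeasurableSet (tube δ a e) :=
  (Pool.Agent.W46.KK.tube_isClosed δ a e).measurableSet

theorem part1 (d : ℕ) : ∃ c C : ℝ, 0 < c ∧ 0 < C ∧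
    (∀ δ : ℝ, 0 < δ → δ < 1 → ∃ E : Set (EuclideanSpace ℝ (Fin (d + 1))), IsCompact E ∧
      volume E ≤ ENNReal.ofReal (C / (1 + Real.log (1 / δ)) ^ d) ∧
      ∀ e : EuclideanSpace ℝ (Fin (d + 1)), ‖e‖ = 1 → ∃ a, tube δ a e ⊆ E) ∧
    (∀ δ : ℝ, 0 < δ → δ < 1 → ∀ p : ℝ, 0 < p → ∀ K : ℝ≥0∞, MaximalBound (d + 1) p δ K →
      ENNReal.ofReal (c * (1 + Real.log (1 / δ)) ^ d) ≤ K) := by
  obtain ⟨C, hC, hE⟩ := Pool.Agent.X91.LB.small_union d
  set s : ℝ := (surf (d + 1) univ).toReal with hs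
  have hst : surf (d + 1) univ ≠ ∞ := measure_ne_top _ _
  have hs0 : 0 < s := by
    apply ENNReal.toReal_pos _ hst
    intro h
    rw [Measure.measure_univ_eq_zero] at h
    exact Measure.toSphere_ne_zero (μ := (volume : Measure (EuclideanSpace ℝ (Fin (d + 1))))) h
  have hss : surf (d + 1) univ = ENNReal.ofReal s := (ENNReal.ofReal_toReal hst).symm
  refine ⟨s / C, C, by positivity, hC, ?_, ?_⟩
  · intro δ hδ hδ1
    obtain ⟨E, h1, h2, h3⟩ := hE δ hδ hδ1
    refine ⟨E, h1, ?_, h3⟩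
    rwa [div_eq_mul_inv, ← inv_pow, ← one_div]
  · intro δ hδ hδ1 p hp K hK
    have hlog : 0 ≤ Real.log (1 / δ) := Real.log_nonneg (by rw [le_div_iff₀ hδ]; linarith)
    obtain ⟨E, h1, h2, h3⟩ := hE δ hδ hδ1
    have hEm : MeasurableSet E := h1.measurableSet
    have hE0 : volume E ≠ 0 := by
      intro h0
      obtain ⟨a, ha⟩ := h3 (EuclideanSpace.single 0 1) (by simp)
      exact (vol_tube' hδ hδ1 a _ (by simp)).1 (measure_mono_null ha h0)
    have hEt : volume E ≠ ∞ := h1.measure_lt_top.ne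
    have h4 := hK (E.indicator fun _ => 1) (measurable_const.indicator hEm).aemeasurable
    rw [ind_pow hEm hp] at h4
    have h5 : ENNReal.ofReal s ≤
        ∫⁻ e, kakeyaMax δ (E.indicator fun _ => 1) e ^ p ∂(surf (d + 1)) := by
      rw [← hss, ← lintegral_one]
      apply lintegral_mono
      intro e
      have he : ‖(e : EuclideanSpace ℝ (Fin (d + 1)))‖ = 1 := by simp
      obtain ⟨a, ha⟩ := h3 e he
      obtain ⟨h6, h7⟩ := vol_tube' hδ hδ1 a _ he
      have h8 : 1 ≤ kakeyaMax δ (E.indicator fun _ => 1) e := by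
        rw [← ind_int ha (tube_meas _ _ _) h6 h7]
        exact le_iSup (fun a => (volume (tube δ a e))⁻¹ *
          ∫⁻ y in tube δ a e, ‖E.indicator (fun _ => (1 : ℝ)) y‖ₑ) a
      exact ENNReal.one_le_rpow h8 hp
    have h6 : ENNReal.ofReal (s / C * (1 + Real.log (1 / δ)) ^ d) * volume E ≤ K * volume E := by
      refine le_trans ?_ (h5.trans h4)
      calc ENNReal.ofReal (s / C * (1 + Real.log (1 / δ)) ^ d) * volume E
          ≤ ENNReal.ofReal (s / C * (1 + Real.log (1 / δ)) ^ d) *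
            ENNReal.ofReal (C * (1 / (1 + Real.log (1 / δ))) ^ d) := by gcongr
        _ = ENNReal.ofReal s := by
            rw [← ENNReal.ofReal_mul (by positivity)]
            congr 1
            have : 0 < 1 + Real.log (1 / δ) := by linarith
            generalize 1 + Real.log (1 / δ) = X at this ⊢
            rw [one_div, inv_pow]
            field_simp
    exact (ENNReal.mul_le_mul_iff_left hE0 hEt).1 h6

theorem part2 (d : ℕ) (hd : 1 ≤ d) : ∃ c C : ℝ, 0 < c ∧ 0 < C ∧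
    ∀ δ : ℝ, 0 < δ → δ < 1 → ∀ p : ℝ, (d : ℝ) + 1 ≤ p →
      ProductBound d p δ (ENNReal.ofReal (C * (1 + Real.log (1 / δ)) ^ d)) ∧
      ∀ K : ℝ≥0∞, ProductBound d p δ K →
        ENNReal.ofReal (c * (1 + Real.log (1 / δ)) ^ d) ≤ K := by
  obtain ⟨k, rfl⟩ : ∃ k, d = k + 1 := ⟨d - 1, by omega⟩
  obtain ⟨C, hC, hup⟩ := Pool.Agent.X91.LB.upper k
  set Q : Set (Vec (k + 1)) := {v | ∀ i, 0 < v i} ∩ ball 0 1 with hQ
  have hQo : IsOpen Q := by
    apply IsOpen.inter _ isOpen_ball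
    have : {v : Vec (k + 1) | ∀ i, 0 < v i} = ⋂ i, {v | 0 < v i} := by
      ext v
      simp
    rw [this]
    exact isOpen_iInter_of_finite fun i => isOpen_lt continuous_const (by fun_prop)
  have hQne : Q.Nonempty := by
    set w : Vec (k + 1) := WithLp.toLp 2 fun _ => (1 : ℝ) with hw
    refine ⟨(1 / (1 + ‖w‖)) • w, ?_, ?_⟩
    · intro i
      simp only [PiLp.smul_apply, hw, smul_eq_mul, mul_one]
      positivity
    · rw [mem_ball_zero_iff, norm_smul, Real.norm_eq_abs, abs_of_pos (by positivity),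
        one_div_mul_eq_div, div_lt_one (by positivity)]
      linarith
  have hQ0 : volume Q ≠ 0 := (hQo.measure_pos volume hQne).ne'
  have hQt : volume Q ≠ ∞ := by
    refine ne_top_of_le_ne_top ?_ (measure_mono inter_subset_right)
    exact measure_ball_lt_top.ne
  set q : ℝ := (volume Q).toReal with hq
  have hq0 : 0 < q := ENNReal.toReal_pos hQ0 hQt
  have hqq : volume Q = ENNReal.ofReal q := (ENNReal.ofReal_toReal hQt).symm
  refine ⟨q / (3 * 204 ^ (k + 1)), C, by positivity, hC, ?_⟩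
  intro δ hδ hδ1 p hp
  have hp0 : 0 < p := lt_of_lt_of_le (by positivity) hp
  have hlog : 0 ≤ Real.log (1 / δ) := Real.log_nonneg (by rw [le_div_iff₀ hδ]; linarith)
  refine ⟨fun β hβ f hf => hup β hβ p δ hp hδ hδ1 f hf, ?_⟩
  intro K hK
  obtain ⟨N, hN, hN1, hN2, hN3⟩ := Pool.Agent.X91.LB.exists_N hδ hδ1
  set E : Set (Space (k + 1)) := Pool.Agent.X91.LB.Es (k + 1) N δ with hE
  have hEc : IsCompact E := Pool.Agent.X91.LB.isCompact_Es (k + 1) N hδ1
  have hEm : MeasurableSet E := (Pool.Agent.X91.LB.isClosed_Es (k + 1) N δ).measurableSet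
  have hEv := Pool.Agent.X91.LB.vol_Es' (k + 1) hN hδ hδ1 hN2 hN3
  have hvt : ∀ (v : Vec (k + 1)) (a : Space (k + 1)), volume (lineTube δ (dir v) a) ≠ 0 ∧
      volume (lineTube δ (dir v) a) ≠ ∞ := by
    intro v a
    have hmp : MeasurePreserving (Pool.Agent.X91.KT.iso (k + 1)) volume volume :=
      (Pool.Agent.X91.KT.iso (k + 1)).measurePreserving
    have hme : MeasurableEmbedding (Pool.Agent.X91.KT.iso (k + 1)) :=
      (Pool.Agent.X91.KT.iso (k + 1)).toHomeomorph.measurableEmbedding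
    have h1 := vol_tube' hδ hδ1 (Pool.Agent.X91.KT.iso (k + 1) a)
      (Pool.Agent.X91.KT.iso (k + 1) (dir v)) (by
        rw [LinearIsometryEquiv.norm_map]
        exact Pool.Agent.X91.KT.norm_dir' v)
    have h2 : volume (lineTube δ (dir v) a) = volume (tube δ (Pool.Agent.X91.KT.iso (k + 1) a)
        (Pool.Agent.X91.KT.iso (k + 1) (dir v))) := by
      have h3 := Pool.Agent.X91.KT.preimage_tube δ (dir v) a
      have h4 := hmp.measure_preimage_emb hme (tube δ (Pool.Agent.X91.KT.iso (k + 1) a)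
        (Pool.Agent.X91.KT.iso (k + 1) (dir v)))
      rw [← h4]
      exact congrArg volume h3.symm
    rw [h2]
    exact h1
  have htm : ∀ (v : Vec (k + 1)) (a : Space (k + 1)), MeasurableSet (lineTube δ (dir v) a) := by
    intro v a
    have h3 := Pool.Agent.X91.KT.preimage_tube δ (dir v) a
    have h4 : lineTube δ (dir v) a = Pool.Agent.X91.KT.iso (k + 1) ⁻¹'
        (Pool.Agent.W46.KK.tube δ (Pool.Agent.X91.KT.iso (k + 1) a)
          (Pool.Agent.X91.KT.iso (k + 1) (dir v))) := h3.symm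
    rw [h4]
    exact (tube_meas _ _ _).preimage (Pool.Agent.X91.KT.iso (k + 1)).continuous.measurable
  have hsub : ∀ v ∈ Q, lineTube δ (dir v)
      (linePt (fun _ => Pool.Agent.X91.LB.bet N) v (1 / 2)) ⊆ E := by
    intro v hv
    refine Pool.Agent.X91.LB.tube_sub hδ1 hN1 fun i => ⟨(hv.1 i).le, ?_⟩
    have h1 := PiLp.norm_apply_le v i
    rw [Real.norm_eq_abs] at h1
    have h2 := mem_ball_zero_iff.1 hv.2
    exact lt_of_le_of_lt (le_abs_self _) (lt_of_le_of_lt h1 h2)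
  have hE0 : volume E ≠ 0 := by
    intro h0
    obtain ⟨v, hv⟩ := hQne
    exact (hvt v _).1 (measure_mono_null (hsub v hv) h0)
  have hEt : volume E ≠ ∞ := hEc.measure_lt_top.ne
  have h4 := hK (fun _ => Pool.Agent.X91.LB.bet N) (fun _ => Pool.Agent.X91.LB.measurable_bet N)
    (E.indicator fun _ => 1) (measurable_const.indicator hEm)
  rw [ind_pow hEm hp0] at h4
  have h5 : ENNReal.ofReal q ≤ ∫⁻ v in closedBall (0 : Vec (k + 1)) 1,
      lineMax δ (fun _ => Pool.Agent.X91.LB.bet N) (E.indicator fun _ => 1) v ^ p := by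
    calc ENNReal.ofReal q = ∫⁻ _v in Q, 1 := by rw [← hqq, setLIntegral_one]
      _ ≤ ∫⁻ v in Q,
          lineMax δ (fun _ => Pool.Agent.X91.LB.bet N) (E.indicator fun _ => 1) v ^ p := by
          apply setLIntegral_mono' hQo.measurableSet
          intro v hv
          obtain ⟨h6, h7⟩ := hvt v (linePt (fun _ => Pool.Agent.X91.LB.bet N) v (1 / 2))
          have h8 : 1 ≤ lineMax δ (fun _ => Pool.Agent.X91.LB.bet N) (E.indicator fun _ => 1) v := by
            rw [← ind_int (hsub v hv) (htm _ _) h6 h7]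
            exact le_iSup (fun s => (volume (lineTube δ (dir v)
              (linePt (fun _ => Pool.Agent.X91.LB.bet N) v s)))⁻¹ *
              ∫⁻ y in lineTube δ (dir v) (linePt (fun _ => Pool.Agent.X91.LB.bet N) v s),
                ‖E.indicator (fun _ => (1 : ℝ)) y‖ₑ) (1 / 2)
          exact ENNReal.one_le_rpow h8 hp0
      _ ≤ _ := lintegral_mono_set (inter_subset_right.trans ball_subset_closedBall)
  have h6 : ENNReal.ofReal (q / (3 * 204 ^ (k + 1)) * (1 + Real.log (1 / δ)) ^ (k + 1)) *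
      volume E ≤ K * volume E := by
    refine le_trans ?_ (h5.trans h4)
    calc ENNReal.ofReal (q / (3 * 204 ^ (k + 1)) * (1 + Real.log (1 / δ)) ^ (k + 1)) * volume E
        ≤ ENNReal.ofReal (q / (3 * 204 ^ (k + 1)) * (1 + Real.log (1 / δ)) ^ (k + 1)) *
          ENNReal.ofReal (3 * 204 ^ (k + 1) * (1 / (1 + Real.log (1 / δ))) ^ (k + 1)) := by gcongr
      _ = ENNReal.ofReal q := by
          rw [← ENNReal.ofReal_mul (by positivity)]
          congr 1
          have : 0 < 1 + Real.log (1 / δ) := by linarith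
          generalize 1 + Real.log (1 / δ) = X at this ⊢
          rw [one_div, inv_pow]
          field_simp
  exact (ENNReal.mul_le_mul_iff_left hE0 hEt).1 h6

/-- **The logarithmic loss in the Kakeya maximal estimates.** -/
theorem result (n : ℕ) (hn : 2 ≤ n) : ∃ c C : ℝ, 0 < c ∧ 0 < C ∧ ∀ δ : ℝ, 0 < δ → δ < 1 →
    SmallUnion n δ (C / (1 + Real.log (1 / δ)) ^ (n - 1)) ∧
    (∀ p : ℝ, 0 < p → ∀ K : ℝ≥0∞, MaximalBound n p δ K →
      ENNReal.ofReal (c * (1 + Real.log (1 / δ)) ^ (n - 1)) ≤ K) ∧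
    ∀ p : ℝ, (n : ℝ) ≤ p →
      ProductBound (n - 1) p δ (ENNReal.ofReal (C * (1 + Real.log (1 / δ)) ^ (n - 1))) ∧
      ∀ K : ℝ≥0∞, ProductBound (n - 1) p δ K →
        ENNReal.ofReal (c * (1 + Real.log (1 / δ)) ^ (n - 1)) ≤ K := by
  obtain ⟨d, rfl⟩ : ∃ d, n = d + 1 := ⟨n - 1, by omega⟩
  obtain ⟨c1, C1, hc1, hC1, h1, h2⟩ := part1 d
  obtain ⟨c2, C2, hc2, hC2, h3⟩ := part2 d (by omega)
  rw [Nat.add_sub_cancel]
  refine ⟨min c1 c2, max C1 C2, lt_min hc1 hc2, lt_max_of_lt_left hC1, ?_⟩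
  intro δ hδ hδ1
  have hL : 0 < 1 + Real.log (1 / δ) := by
    have : 0 ≤ Real.log (1 / δ) := Real.log_nonneg (by rw [le_div_iff₀ hδ]; linarith)
    linarith
  refine ⟨?_, ?_, ?_⟩
  · obtain ⟨E, h4, h5, h6⟩ := h1 δ hδ hδ1
    refine ⟨E, h4, h5.trans (ENNReal.ofReal_le_ofReal ?_), h6⟩
    gcongr
    exact le_max_left _ _
  · intro p hp K hK
    refine le_trans (ENNReal.ofReal_le_ofReal ?_) (h2 δ hδ hδ1 p hp K hK)
    gcongr
    exact min_le_left _ _
  · intro p hp
    push_cast at hp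
    obtain ⟨h4, h5⟩ := h3 δ hδ hδ1 p hp
    refine ⟨fun β hβ f hf => (h4 β hβ f hf).trans (mul_le_mul_left (ENNReal.ofReal_le_ofReal ?_) _),
      fun K hK => le_trans (ENNReal.ofReal_le_ofReal ?_) (h5 K hK)⟩
    · gcongr
      exact le_max_right _ _
    · gcongr
      exact min_le_right _ _

end Pool.Agent.Results.MP_5168f5_an.LogarithmicLoss
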