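import Pool.Agent.X91.KT.LR2

set_option autoImplicit false

/-!
# MP_5168f5: loss removal for the Kakeya maximal function, and its critical slope

For `n ≥ 3` and a slope `c ≥ 1` let `p = 1 + (n-1)/c` (so `c = 1` is `p = n`) and
`q = 1 + c/(n-1)` (the dual exponent).  The scale-invariant estimates at the slope `c` are

* the weak type estimate `L^p → L^(c p, ∞)` for the Kakeya maximal function, with the natural
  constant `δ^(-(c-1)(n-1))` (`WeakEst n c 0 C`);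
* the inequality `∫ (∑ 1_T)^q ≤ C δ^(n-1) N^(q - 1/(n-1))` for any number `N` of `δ`-tubes with
  `δ`-separated directions (`TubeEst n c 0 C`);

and the same with an additional loss of `δ^(-ε)` (`WeakEst n c ε C`, `TubeEst n c ε C`).

* Loss removal: the estimates with arbitrarily small losses at the slope `c₀` are equivalent to the
  estimates *without any loss* for all slopes `c > c₀`; the maximal and the tube form are equivalent.
* There is a critical slope `c*(n) ∈ [1, 2(n-1)/n]`: the estimates with arbitrarily small losses hold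
  exactly for `c ≥ c*(n)`.
* The Kakeya maximal conjecture in `ℝ^n` is `c*(n) = 1`, and it is equivalent to the estimates
  `‖f*_δ‖_p ≤ C_p δ^(1 - n/p) ‖f‖_p` *without loss* for all `1 < p < n`, and (by the first part with
  `c = 1`) to the tube inequality `‖∑ 1_T‖_q ≤ C_q δ^((n-1)/q) N^(1 - 1/(q(n-1)))` *without loss* for
  all `q > n/(n-1)`.
-/

open MeasureTheory Set Metric
open scoped ENNReal

namespace Pool.Agent.Results.MP_5168f5_an.LossRemoval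

/-- The closed cylinder of length `1` and radius `δ` with centre `a` and axis direction `e`. -/
def tube {n : ℕ} (δ : ℝ) (a e : EuclideanSpace ℝ (Fin n)) : Set (EuclideanSpace ℝ (Fin n)) :=
  {y | |inner ℝ (y - a) e| ≤ 1 / 2 ∧ ‖(y - a) - (inner ℝ (y - a) e) • e‖ ≤ δ}

/-- The Kakeya maximal function. -/
noncomputable def kakeyaMax {n : ℕ} (δ : ℝ) (f : EuclideanSpace ℝ (Fin n) → ℝ)
    (e : EuclideanSpace ℝ (Fin n)) : ℝ≥0∞ :=
  ⨆ a : EuclideanSpace ℝ (Fin n), (volume (tube δ a e))⁻¹ * ∫⁻ y in tube δ a e, ‖f y‖ₑ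

/-- Surface measure of the unit sphere. -/
noncomputable abbrev surf (n : ℕ) : Measure (sphere (0 : EuclideanSpace ℝ (Fin n)) 1) :=
  (volume : Measure (EuclideanSpace ℝ (Fin n))).toSphere

/-- `‖f*_δ‖_p^p ≤ C δ^(-ε) δ^(-(n-p)) ‖f‖_p^p` for all `f` and `0 < δ < 1`. -/
def StrongEst (n : ℕ) (p ε C : ℝ) : Prop :=
  ∀ δ : ℝ, 0 < δ → δ < 1 → ∀ f : EuclideanSpace ℝ (Fin n) → ℝ, AEMeasurable f volume →
    ∫⁻ e, kakeyaMax δ f e ^ p ∂(surf n) ≤
      ENNReal.ofReal (C * δ ^ (-ε) * δ ^ (-((n : ℝ) - p))) * ∫⁻ y, ‖f y‖ₑ ^ p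

/-- The Kakeya maximal function conjecture in `ℝ^n`. -/
def MaximalConjecture (n : ℕ) : Prop := ∀ ε : ℝ, 0 < ε → ∃ C : ℝ, StrongEst n n ε C

/-- The distribution function of the Kakeya maximal function. -/
noncomputable def lev {n : ℕ} (δ : ℝ) (f : EuclideanSpace ℝ (Fin n) → ℝ) (l : ℝ) : ℝ≥0∞ :=
  surf n {e | ENNReal.ofReal l < kakeyaMax δ f e}

/-- The weak type estimate `L^p → L^(c p, ∞)`, `p = 1 + (n-1)/c`, with the loss `δ^(-ε)`. -/
def WeakEst (n : ℕ) (c ε C : ℝ) : Prop :=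
  ∀ δ : ℝ, 0 < δ → δ < 1 → ∀ f : EuclideanSpace ℝ (Fin n) → ℝ, AEMeasurable f volume →
    ∀ l : ℝ, 0 < l → lev δ f l ≤
      ENNReal.ofReal (C * δ ^ (-ε) * δ ^ (-((c - 1) * ((n : ℝ) - 1))) * l ^ (-((n : ℝ) - 1 + c))) *
        (∫⁻ y, ‖f y‖ₑ ^ (1 + ((n : ℝ) - 1) / c)) ^ c

/-- The tube inequality at the exponent `q = 1 + c/(n-1)`, with the loss `δ^(-ε)`: for any number
`N` of `δ`-tubes with `δ`-separated directions
`∫ (∑ 1_T)^q ≤ C δ^(-ε) δ^(n-1) N^(q - 1/(n-1))`. -/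
def TubeEst (n : ℕ) (c ε C : ℝ) : Prop :=
  ∀ δ : ℝ, 0 < δ → δ < 1 → ∀ (ι : Type) [Fintype ι] (a e : ι → EuclideanSpace ℝ (Fin n)),
    (∀ i, ‖e i‖ = 1) → (∀ i j, i ≠ j → δ ≤ ‖e i - e j‖) →
    ∫⁻ x, (∑ i, (tube δ (a i) (e i)).indicator 1 x) ^ (1 + c / ((n : ℝ) - 1)) ≤
      ENNReal.ofReal (C * δ ^ (-ε) * δ ^ (n - 1) *
        (Fintype.card ι : ℝ) ^ (1 + c / ((n : ℝ) - 1) - 1 / ((n : ℝ) - 1)))

open Pool.Agent.Y244.HM (WeakP StrongP strongP)
open Pool.Agent.Y254.EL (sg EuL EuF KM euL_of_KM)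
open Pool.Agent.X91.KT

theorem cast_sub (d : ℕ) : (((d + 1 : ℕ) : ℝ) - 1) = d := by push_cast; ring

theorem weak_of_weakP {d : ℕ} {c : ℝ} (h : WeakP d c) : ∃ C : ℝ, WeakEst (d + 1) c 0 C := by
  obtain ⟨C, hC, hw⟩ := h
  refine ⟨C, ?_⟩
  intro δ hδ hδ1 f hf l hl
  rw [cast_sub, neg_zero, Real.rpow_zero, mul_one]
  exact hw δ hδ hδ1 (fun y => ‖f y‖ₑ) hf.enorm l hl

theorem weakEst_mono {d : ℕ} {c ε C C' : ℝ} (hCC : C ≤ C') (h : WeakEst (d + 1) c ε C) :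
    WeakEst (d + 1) c ε C' := by
  intro δ hδ hδ1 f hf l hl
  refine (h δ hδ hδ1 f hf l hl).trans ?_
  gcongr

theorem wk_of_weak {d : ℕ} {c ε C : ℝ} (h : WeakEst (d + 1) c ε C) :
    ∃ C' : ℝ, 0 ≤ C' ∧ WK d c ε C' := by
  refine ⟨max C 0, le_max_right _ _, ?_⟩
  intro δ hδ hδ1 f hf hft l hl
  have h1 := weakEst_mono (le_max_left C 0) h δ hδ hδ1 (fun y => (f y).toReal)
    hf.ennreal_toReal.aemeasurable l hl
  have h2 : ∀ y, ‖(f y).toReal‖ₑ = f y := by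
    intro y
    rw [Real.enorm_eq_ofReal ENNReal.toReal_nonneg, ENNReal.ofReal_toReal (hft y)]
  unfold lev kakeyaMax at h1
  simp only [h2] at h1
  rw [cast_sub] at h1
  exact h1

theorem weakP_of_weak {d : ℕ} {c : ℝ} (hd : 2 ≤ d) (hc : 1 ≤ c)
    (h : ∀ ε : ℝ, 0 < ε → ∃ C : ℝ, WeakEst (d + 1) c ε C) {c' : ℝ} (hcc : c < c') :
    WeakP d c' ∧ ∃ C : ℝ, 0 < C ∧ EuF d (1 + c' / d) C := by
  have h1 := euL_of_WK (d := d) (by omega) hc fun ε hε => by
    obtain ⟨C, hC⟩ := h ε hε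
    exact wk_of_weak hC
  obtain ⟨C, hC, hF⟩ := euF_of_euL' hd hc hcc h1
  exact ⟨weakP_of_euF hd (by linarith) hC hF, C, hC, hF⟩

theorem weak_of_above {d : ℕ} {c : ℝ} (hd : 1 ≤ d) (hc : 1 ≤ c) (h : ∀ c', c < c' → WeakP d c')
    (ε : ℝ) (hε : 0 < ε) : ∃ C : ℝ, WeakEst (d + 1) c ε C := by
  obtain ⟨C, hC, hw⟩ := WK_of_weakP hd hc h ε hε
  refine ⟨C, ?_⟩
  intro δ hδ hδ1 f hf l hl
  rw [cast_sub]
  exact hw δ hδ hδ1 (fun y => ‖f y‖ₑ) hf.enorm l hl

theorem eul_of_tube {d : ℕ} {c ε C : ℝ} (h : TubeEst (d + 1) c ε C) :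
    ∃ C' : ℝ, 0 ≤ C' ∧ EuL d (1 + c / d) ε C' := by
  refine ⟨max C 0, le_max_right _ _, ?_⟩
  intro δ hδ hδ1 ι _ a e he hsep
  have h1 := h δ hδ hδ1 ι a e he hsep
  rw [cast_sub, Nat.add_sub_cancel] at h1
  refine h1.trans (ENNReal.ofReal_le_ofReal ?_)
  rw [mul_assoc, mul_assoc]
  gcongr
  exact le_max_left _ _

theorem tube_of_eul {d : ℕ} {c ε C : ℝ} (h : EuL d (1 + c / d) ε C) :
    TubeEst (d + 1) c ε C := by
  intro δ hδ hδ1 ι _ a e he hsep
  have h1 := h δ hδ hδ1 ι a e he hsep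
  rw [cast_sub, Nat.add_sub_cancel]
  refine h1.trans (le_of_eq ?_)
  congr 1
  ring

theorem tube_of_euf {d : ℕ} {c C : ℝ} (h : EuF d (1 + c / d) C) :
    TubeEst (d + 1) c 0 C := by
  intro δ hδ hδ1 ι _ a e he hsep
  have h1 := h δ hδ hδ1 ι a e he hsep
  rw [cast_sub, Nat.add_sub_cancel, neg_zero, Real.rpow_zero]
  refine h1.trans (le_of_eq ?_)
  congr 1
  ring

theorem euf_of_tube {d : ℕ} {c C : ℝ} (h : TubeEst (d + 1) c 0 C) :
    ∃ C' : ℝ, 0 < C' ∧ EuF d (1 + c / d) C' := by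
  refine ⟨max C 1, lt_max_of_lt_right one_pos, ?_⟩
  intro δ hδ hδ1 ι _ a e he hsep
  have h1 := h δ hδ hδ1 ι a e he hsep
  rw [cast_sub, Nat.add_sub_cancel, neg_zero, Real.rpow_zero, mul_one] at h1
  refine h1.trans (ENNReal.ofReal_le_ofReal ?_)
  rw [mul_assoc]
  gcongr
  exact le_max_left _ _

/-- The equivalences at a fixed slope. -/
theorem equiv {d : ℕ} (hd : 2 ≤ d) {c : ℝ} (hc : 1 ≤ c) :
    ((∀ ε : ℝ, 0 < ε → ∃ C : ℝ, WeakEst (d + 1) c ε C) ↔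
      ∀ ε : ℝ, 0 < ε → ∃ C : ℝ, TubeEst (d + 1) c ε C) ∧
    ((∀ ε : ℝ, 0 < ε → ∃ C : ℝ, WeakEst (d + 1) c ε C) ↔
      ∀ c' : ℝ, c < c' → ∃ C : ℝ, WeakEst (d + 1) c' 0 C) ∧
    ((∀ ε : ℝ, 0 < ε → ∃ C : ℝ, WeakEst (d + 1) c ε C) ↔
      ∀ c' : ℝ, c < c' → ∃ C : ℝ, TubeEst (d + 1) c' 0 C) := by
  have h3 : (∀ c' : ℝ, c < c' → ∃ C : ℝ, 0 < C ∧ EuF d (1 + c' / d) C) →
      ∀ ε : ℝ, 0 < ε → ∃ C : ℝ, WeakEst (d + 1) c ε C := by
    intro h
    refine weak_of_above (by omega) hc fun c' hcc => ?_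
    obtain ⟨C, hC, hF⟩ := h c' hcc
    exact weakP_of_euF hd (by linarith) hC hF
  refine ⟨⟨fun h ε hε => ?_, fun h => ?_⟩, ⟨fun h c' hcc => ?_, fun h => ?_⟩,
    ⟨fun h c' hcc => ?_, fun h => ?_⟩⟩
  · obtain ⟨C, _, hC⟩ := euL_of_WK (d := d) (by omega) hc (fun ε hε => by
      obtain ⟨C, hC⟩ := h ε hε
      exact wk_of_weak hC) ε hε
    exact ⟨C, tube_of_eul hC⟩
  · apply h3
    intro c' hcc
    refine euF_of_euL' hd hc hcc fun ε hε => ?_
    obtain ⟨C, hC⟩ := h ε hε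
    exact eul_of_tube hC
  · exact weak_of_weakP (weakP_of_weak hd hc h hcc).1
  · intro ε hε
    refine weak_of_above (by omega) hc (fun c' hcc => ?_) ε hε
    obtain ⟨C, hC⟩ := h ((c + c') / 2) (by linarith)
    have h0 : ∀ ε : ℝ, 0 < ε → ∃ C : ℝ, WeakEst (d + 1) ((c + c') / 2) ε C := by
      intro ε hε
      refine ⟨max C 0, ?_⟩
      intro δ hδ hδ1 f hf l hl
      refine (weakEst_mono (le_max_left C 0) hC δ hδ hδ1 f hf l hl).trans ?_
      rw [neg_zero, Real.rpow_zero]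
      have hδε : 1 ≤ δ ^ (-ε) :=
        Real.one_le_rpow_of_pos_of_le_one_of_nonpos hδ hδ1.le (by linarith)
      gcongr
    exact (weakP_of_weak hd (by linarith) h0 (by linarith)).1
  · obtain ⟨C, hC, hF⟩ := (weakP_of_weak hd hc h hcc).2
    exact ⟨C, tube_of_euf hF⟩
  · apply h3
    intro c' hcc
    obtain ⟨C, hC⟩ := h c' hcc
    exact euf_of_tube hC

/-- The conjecture in terms of the weak type estimates. -/
theorem conj_iff {d : ℕ} (hd : 2 ≤ d) : MaximalConjecture (d + 1) ↔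
    ∀ ε : ℝ, 0 < ε → ∃ C : ℝ, WeakEst (d + 1) 1 ε C := by
  have hd0 : (0 : ℝ) < d := by
    have : 0 < d := by omega
    exact_mod_cast this
  constructor
  · intro h ε hε
    have hKM : ∀ ε : ℝ, 0 < ε → ∃ C : ℝ, 0 ≤ C ∧ KM d ε C := by
      intro ε hε
      obtain ⟨C, hC⟩ := h ε hε
      refine ⟨max C 0, le_max_right _ _, ?_⟩
      intro δ hδ hδ1 f hf hft
      have h1 := hC δ hδ hδ1 (fun y => (f y).toReal) hf.ennreal_toReal.aemeasurable
      have h2 : ∀ y, ‖(f y).toReal‖ₑ = f y := by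
        intro y
        rw [Real.enorm_eq_ofReal ENNReal.toReal_nonneg, ENNReal.ofReal_toReal (hft y)]
      unfold kakeyaMax at h1
      simp only [h2] at h1
      rw [sub_self, neg_zero, Real.rpow_zero, mul_one] at h1
      have e : (((d + 1 : ℕ) : ℝ)) = (d : ℝ) + 1 := by push_cast; ring
      rw [e] at h1
      refine h1.trans ?_
      gcongr
      exact le_max_left _ _
    have hL := euL_of_KM (by omega) hKM
    refine weak_of_above (by omega) le_rfl (fun c' hcc => ?_) ε hε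
    obtain ⟨C, hC, hF⟩ := euF_of_euL' hd le_rfl hcc hL
    exact weakP_of_euF hd (by linarith) hC hF
  · intro h ε hε
    set c : ℝ := 1 + ε / (d + ε) with hc
    have hc1 : 1 < c := by
      have : 0 < ε / ((d : ℝ) + ε) := by positivity
      linarith
    obtain ⟨C, hC, hs⟩ := strongP (by omega) hc1 (weakP_of_weak hd le_rfl h hc1).1
    refine ⟨C, ?_⟩
    intro δ hδ hδ1 f hf
    have h1 := Pool.Agent.Y254.EL.crit_of_sub hc1 (by omega) hδ hδ1
      (fun g hg _ => hs δ hδ hδ1 g hg) (fun y => ‖f y‖ₑ) hf.enorm (fun x => enorm_ne_top)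
    have e : (((d + 1 : ℕ) : ℝ)) = (d : ℝ) + 1 := by push_cast; ring
    rw [sub_self, neg_zero, Real.rpow_zero, mul_one, e]
    refine h1.trans (mul_le_mul_left (ENNReal.ofReal_le_ofReal
      (mul_le_mul_of_nonneg_left ?_ (by positivity))) _)
    apply Real.rpow_le_rpow_of_exponent_ge hδ hδ1.le
    have : (d : ℝ) - d / c ≤ ε := by
      have h2 : (d : ℝ) - d / c = d * (c - 1) / c := by field_simp
      rw [h2, hc, div_le_iff₀ (by positivity)]
      have h3 : 0 < (d : ℝ) + ε := by positivity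
      have h4 : (d : ℝ) * (1 + ε / (d + ε) - 1) ≤ ε * 1 := by
        have : (d : ℝ) * (1 + ε / (d + ε) - 1) = ε * (d / (d + ε)) := by field_simp; ring
        rw [this]
        gcongr
        rw [div_le_one h3]
        linarith
      have h5 : 0 ≤ ε / ((d : ℝ) + ε) := by positivity
      nlinarith
    linarith

theorem strong_iff {d : ℕ} (hd : 2 ≤ d) : MaximalConjecture (d + 1) ↔
    ∀ p : ℝ, 1 < p → p < (d + 1 : ℕ) → ∃ C : ℝ, StrongEst (d + 1) p 0 C := by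
  have hd0 : (0 : ℝ) < d := by
    have : 0 < d := by omega
    exact_mod_cast this
  have e : (((d + 1 : ℕ) : ℝ)) = (d : ℝ) + 1 := by push_cast; ring
  constructor
  · intro h p hp1 hp2
    rw [conj_iff hd] at h
    rw [e] at hp2
    set c : ℝ := d / (p - 1) with hc
    have hp0 : 0 < p - 1 := by linarith
    have hc1 : 1 < c := by
      rw [hc, lt_div_iff₀ hp0]
      linarith
    have hpc : 1 + (d : ℝ) / c = p := by
      rw [hc]
      field_simp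
      ring
    obtain ⟨C, hC, hs⟩ := strongP (by omega) hc1 (weakP_of_weak hd le_rfl h hc1).1
    refine ⟨C, ?_⟩
    intro δ hδ hδ1 f hf
    have h1 := hs δ hδ hδ1 (fun y => ‖f y‖ₑ) hf.enorm
    rw [hpc] at h1
    rw [neg_zero, Real.rpow_zero, mul_one, e]
    have e2 : (d : ℝ) + 1 - p = (d : ℝ) - d / c := by
      have : (d : ℝ) / c = p - 1 := by linarith
      rw [this]
      ring
    rw [e2]
    exact h1
  · intro h ε hε
    set c : ℝ := 1 + ε / (d + ε) with hc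
    have hc1 : 1 < c := by
      have : 0 < ε / ((d : ℝ) + ε) := by positivity
      linarith
    have hp1 : 1 < 1 + (d : ℝ) / c := by
      have : 0 < (d : ℝ) / c := by positivity
      linarith
    have hp2 : 1 + (d : ℝ) / c < (d + 1 : ℕ) := by
      rw [e]
      have : (d : ℝ) / c < d := div_lt_self hd0 hc1
      linarith
    obtain ⟨C, hC⟩ := h _ hp1 hp2
    refine ⟨max C 0, ?_⟩
    intro δ hδ hδ1 f hf
    have h1 := Pool.Agent.Y254.EL.crit_of_sub (C := max C 0) hc1 (by omega) hδ hδ1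
      (fun g hg hgt => by
        have h2 : ∀ y, ‖(g y).toReal‖ₑ = g y := by
          intro y
          rw [Real.enorm_eq_ofReal ENNReal.toReal_nonneg, ENNReal.ofReal_toReal (hgt y)]
        have h3 := hC δ hδ hδ1 (fun y => (g y).toReal) hg.ennreal_toReal
        unfold kakeyaMax at h3
        simp only [h2] at h3
        rw [neg_zero, Real.rpow_zero, mul_one] at h3
        have e2 : (((d + 1 : ℕ) : ℝ)) - (1 + (d : ℝ) / c) = (d : ℝ) - d / c := by
          rw [e]; ring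
        rw [e2] at h3
        refine h3.trans ?_
        gcongr
        exact le_max_left _ _) (fun y => ‖f y‖ₑ) hf.enorm (fun x => enorm_ne_top)
    rw [sub_self, neg_zero, Real.rpow_zero, mul_one, e]
    refine h1.trans (mul_le_mul_left (ENNReal.ofReal_le_ofReal
      (mul_le_mul_of_nonneg_left ?_ (by positivity))) _)
    apply Real.rpow_le_rpow_of_exponent_ge hδ hδ1.le
    have : (d : ℝ) - d / c ≤ ε := by
      have h2 : (d : ℝ) - d / c = d * (c - 1) / c := by field_simp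
      rw [h2, hc, div_le_iff₀ (by positivity)]
      have h3 : 0 < (d : ℝ) + ε := by positivity
      have h4 : (d : ℝ) * (1 + ε / (d + ε) - 1) ≤ ε * 1 := by
        have : (d : ℝ) * (1 + ε / (d + ε) - 1) = ε * (d / (d + ε)) := by field_simp; ring
        rw [this]
        gcongr
        rw [div_le_one h3]
        linarith
      have h5 : 0 ≤ ε / ((d : ℝ) + ε) := by positivity
      nlinarith
    linarith

/-- **Loss removal for the Kakeya maximal function, and its critical slope.** -/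
theorem result (n : ℕ) (hn : 3 ≤ n) :
    (∀ c : ℝ, 1 ≤ c →
      ((∀ ε : ℝ, 0 < ε → ∃ C : ℝ, WeakEst n c ε C) ↔ ∀ ε : ℝ, 0 < ε → ∃ C : ℝ, TubeEst n c ε C) ∧
      ((∀ ε : ℝ, 0 < ε → ∃ C : ℝ, WeakEst n c ε C) ↔ ∀ c' : ℝ, c < c' → ∃ C : ℝ, WeakEst n c' 0 C) ∧
      ((∀ ε : ℝ, 0 < ε → ∃ C : ℝ, WeakEst n c ε C) ↔
        ∀ c' : ℝ, c < c' → ∃ C : ℝ, TubeEst n c' 0 C)) ∧
    ∃ cs : ℝ, 1 ≤ cs ∧ cs ≤ 2 * ((n : ℝ) - 1) / n ∧
      (∀ c : ℝ, 1 ≤ c → ((∀ ε : ℝ, 0 < ε → ∃ C : ℝ, WeakEst n c ε C) ↔ cs ≤ c)) ∧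
      (MaximalConjecture n ↔ cs = 1) ∧
      ((∀ p : ℝ, 1 < p → p < n → ∃ C : ℝ, StrongEst n p 0 C) ↔ cs = 1) := by
  obtain ⟨d, rfl⟩ : ∃ d, n = d + 1 := ⟨n - 1, by omega⟩
  have hd : 2 ≤ d := by omega
  have hd2 : (2 : ℝ) ≤ d := by exact_mod_cast hd
  refine ⟨fun c hc => equiv hd hc, ?_⟩
  set S : Set ℝ := {c | 1 ≤ c ∧ ∀ ε : ℝ, 0 < ε → ∃ C : ℝ, WeakEst (d + 1) c ε C} with hS
  have hb : BddBelow S := ⟨1, fun c hc => hc.1⟩
  set w : ℝ := 2 * (d : ℝ) / (d + 1) with hw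
  have hw1 : 1 ≤ w := by
    rw [hw, le_div_iff₀ (by positivity)]
    linarith
  have hwS : w ∈ S := by
    refine ⟨hw1, weak_of_above (by omega) hw1 fun c' hcc => ?_⟩
    exact (Pool.Agent.Y244.WR.wolff_max hd hcc).1
  have hne : S.Nonempty := ⟨w, hwS⟩
  have h1 : 1 ≤ sInf S := le_csInf hne fun c hc => hc.1
  have h2 : ∀ c : ℝ, 1 ≤ c → ((∀ ε : ℝ, 0 < ε → ∃ C : ℝ, WeakEst (d + 1) c ε C) ↔ sInf S ≤ c) := by
    intro c hc
    refine ⟨fun h => csInf_le hb ⟨hc, h⟩, fun h => ?_⟩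
    refine weak_of_above (by omega) hc fun c' hcc => ?_
    obtain ⟨c1, hc1, hc1'⟩ := exists_lt_of_csInf_lt hne (lt_of_le_of_lt h hcc)
    exact (weakP_of_weak hd hc1.1 hc1.2 hc1').1
  have h3 : (∀ ε : ℝ, 0 < ε → ∃ C : ℝ, WeakEst (d + 1) 1 ε C) ↔ sInf S = 1 := by
    rw [h2 1 le_rfl]
    exact ⟨fun h => le_antisymm h h1, fun h => h.le⟩
  refine ⟨sInf S, h1, ?_, h2, ?_, ?_⟩
  · refine (csInf_le hb hwS).trans (le_of_eq ?_)
    rw [cast_sub, hw]
    push_cast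
    ring
  · rw [conj_iff hd, h3]
  · rw [← strong_iff hd, conj_iff hd, h3]

end Pool.Agent.Results.MP_5168f5_an.LossRemoval
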