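import Pool.Agent.X91.KT.Cls

set_option autoImplicit false

/-!
# MP_5168f5: composition of Kakeya maximal estimates, and skew products of arbitrary families

Work in `ℝ^n = ℝ^d × ℝ`, `n = d + 1`, with its Euclidean norm (`Space d`).  A measurable map
`b : ℝ^d → ℝ^d` gives the family of lines `{(b v + s v, s) : s ∈ ℝ}` with the directions `(v, 1)`,
`v ∈ B`, where `B` is a measurable subset of the closed unit ball; `lineMax δ b f v` is the supremum
of the averages of `|f|` over the `δ`-tubes of length one with axis on the line number `v`.  By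
measurable selection the Kakeya maximal conjecture is the estimate
`∫_B (lineMax δ b f)^n ≤ C_ε δ^(-ε) ∫ |f|^n` for *all* measurable `b`; at an exponent `p ≤ n` the
natural loss is `δ^(-(n-p))`.

In a skew product the directions are split, `ℝ^d = ℝ^{d1} × ℝ^{d2}` (any orthogonal splitting), the
first component of `b(v1, v2)` is `b1(v1)` and the second one is `b2(v1)(v2)`, where the dependence on
`v1` is completely arbitrary (measurable).

* Composition theorem: if `b1` satisfies the `L^p1 → L^(l p1)` estimate with the constant `C1` and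
  every `b2(v1)` the `L^p2 → L^(l p2)` estimate with the constant `C2`, then the skew product (and
  every family at distance at most `δ` from it) satisfies the `L^p → L^(l p)` estimate,
  `p = p1 + p2 - 1`, with the constant `K C1 C2`.
* Towers: this can be iterated, in the base and in every fibre, together with countable
  decompositions; the constants depend on the dimension and on the data of the stages only.  The stages are: arbitrary families
  in the plane (`p = 2`); arbitrary families in `ℝ^{d+1}`, `d ≥ 2` (`p = 1 + d/c`, `c` in the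
  hairbrush range `c > 2d/(d+1)` or in the arithmetic/hybrid range, `d ≥ 9`); families with at most
  `M` lines through almost every point, section-monotone and smooth families (`p = d + 1`); any
  family that satisfies the natural estimate at any exponent `p`.
* So skew products of `k` arbitrary families satisfy the Kakeya maximal estimates for all
  exponents below `(n + 1 + k)/2` (`(n + 2)/2` for a general family); stated below for `k = 2`.
* For towers over the rough stages the loss at the exponent `n` is `(1 + log (1/δ))^(n-1)` only.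
-/

open MeasureTheory Set ENNReal NNReal Metric

namespace Pool.Agent.Results.MP_5168f5_an.SkewProducts

/-- Euclidean space `ℝ^d`. -/
abbrev Vec (d : ℕ) : Type := EuclideanSpace ℝ (Fin d)

/-- Euclidean space `ℝ^{d+1}`, written as `ℝ^d × ℝ` with the Euclidean norm. -/
abbrev Space (d : ℕ) : Type := WithLp 2 (Vec d × ℝ)

/-- The unit vector `(v, 1)/√(1+|v|²)`. -/
noncomputable def dir {d : ℕ} (v : Vec d) : Space d :=
  (√(1 + ‖v‖ ^ 2))⁻¹ • WithLp.toLp 2 (v, (1:ℝ))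

/-- The closed tube of length `1` and radius `δ` with centre `a` and axis direction `e`. -/
def tube {d : ℕ} (δ : ℝ) (e a : Space d) : Set (Space d) :=
  {y | |inner ℝ (y - a) e| ≤ 1 / 2 ∧ ‖(y - a) - (inner ℝ (y - a) e : ℝ) • e‖ ≤ δ}

/-- The point of height `s` on the line `{(b v + s v, s)}`. -/
noncomputable def linePt {d : ℕ} (b : Vec d → Vec d) (v : Vec d) (s : ℝ) : Space d :=
  WithLp.toLp 2 (b v + s • v, s)

/-- Supremum of the averages of `|f|` over the `δ`-tubes with axis on the line number `v`. -/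
noncomputable def lineMax {d : ℕ} (δ : ℝ) (b : Vec d → Vec d) (f : Space d → ℝ) (v : Vec d) : ℝ≥0∞ :=
  ⨆ s : ℝ, (volume (tube δ (dir v) (linePt b v s)))⁻¹ *
    ∫⁻ y in tube δ (dir v) (linePt b v s), ‖f y‖ₑ

/-- The Kakeya maximal estimate `L^p → L^(l p)` with constant `C` for the width `δ`, the lines number
`v ∈ B` and the functions that vanish at the heights outside `T`. -/
def Estimate {d : ℕ} (T : Set ℝ) (δ l p : ℝ) (C : ℝ≥0∞) (B : Set (Vec d)) (b : Vec d → Vec d) :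
    Prop :=
  ∀ f : Space d → ℝ, Measurable f →
    (∀ (y : Vec d) (t : ℝ), t ∉ T → f (WithLp.toLp 2 (y, t)) = 0) →
    ∫⁻ v in B, lineMax δ b f v ^ (l * p) ≤ C * (∫⁻ y, ‖f y‖ₑ ^ p) ^ l

/-- A measurable family: `B` is a measurable subset of the unit ball, `b` is measurable. -/
def Family {d : ℕ} (B : Set (Vec d)) (b : Vec d → Vec d) : Prop :=
  MeasurableSet B ∧ B ⊆ closedBall 0 1 ∧ Measurable b

/-- Up to a null set, `B` is covered by countably many measurable sets on which `b` is Lipschitz. -/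
def LipPieces {d : ℕ} (B : Set (Vec d)) (b : Vec d → Vec d) : Prop :=
  ∃ P : ℕ → Set (Vec d), (∀ k, MeasurableSet (P k)) ∧ volume (B \ ⋃ k, P k) = 0 ∧
    ∀ k, ∃ C : ℝ≥0, LipschitzOnWith C b (P k)

/-- For almost every height `t ∈ T`, almost every point of height `t` lies on at most `M` of the
lines with direction in `B`. -/
def OverlapLE {d : ℕ} (M : ℕ) (T : Set ℝ) (B : Set (Vec d)) (b : Vec d → Vec d) : Prop :=
  ∀ᵐ t : ℝ, t ∈ T → ∀ᵐ y : Vec d, {v | v ∈ B ∧ b v + t • v = y}.encard ≤ M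

/-- For almost every height `t ∈ T` the section map `v ↦ b v + t v` becomes monotone on `B` after
composition with an invertible linear map `K` (which may depend on `t`). -/
def SectionMonotone {d : ℕ} (T : Set ℝ) (B : Set (Vec d)) (b : Vec d → Vec d) : Prop :=
  ∀ᵐ t : ℝ, t ∈ T → ∃ K : Vec d →L[ℝ] Vec d, K.det ≠ 0 ∧
    ∀ v ∈ B, ∀ w ∈ B, 0 ≤ inner ℝ (K ((b v + t • v) - (b w + t • w))) (v - w)

/-- The polynomial map `ℝ^d → ℝ^d` with components `P i`. -/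
noncomputable def polyMap {d : ℕ} (P : Fin d → MvPolynomial (Fin d) ℝ) (v : Vec d) : Vec d :=
  WithLp.toLp 2 (fun i => MvPolynomial.eval (fun j => v j) (P i))

/-- `b` is of class `C^k` on `B` in the sense of Taylor approximation, with constant `A`: at every
`v₀ ∈ B` there is a polynomial map of degree `< k` with `|b v - P v| ≤ A |v - v₀|^k` on `B`. -/
def TaylorClass {d : ℕ} (k : ℕ) (A : ℝ) (B : Set (Vec d)) (b : Vec d → Vec d) : Prop :=
  ∀ v₀ ∈ B, ∃ P : Fin d → MvPolynomial (Fin d) ℝ, (∀ i, (P i).totalDegree < k) ∧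
    ∀ v ∈ B, ‖b v - polyMap P v‖ ≤ A * ‖v - v₀‖ ^ k

/-- The admissible slopes `c` in `ℝ^(d+1)`: `d ≥ 2` and `c > 2d/(d+1)` (that is
`1 + d/c < (d+3)/2`), or `d ≥ 9`, `c > 1` and the two inequalities hold with some `x ∈ [0, 1]`. -/
def Slope (d : ℕ) (c : ℝ) : Prop :=
  (2 ≤ d ∧ 2 * (d : ℝ) / (d + 1) < c) ∨ (9 ≤ d ∧ 1 < c ∧ ∃ x : ℝ, 0 ≤ x ∧ x ≤ 1 ∧
    0 < (d : ℝ) * (c ^ 3 - 4 * c + 2) + x * (c * (3 * c - 1 - c ^ 2)) ∧
    4 * c ^ 2 + 5 * c - 4 + x * (3 * c ^ 2 + 1) < (d : ℝ) * (c ^ 2 - 1) + x * (3 * c - 1 - c ^ 2))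

/-- The rough stages: arbitrary families of lines in the plane; families with at most `M` lines
through almost every point, given by a map that is Lipschitz on countably many pieces;
section-monotone families. -/
inductive RoughStage (T : Set ℝ) : (d : ℕ) → ℝ → ℝ≥0 → Set (Vec d) → (Vec d → Vec d) → Prop
  | planar {B : Set (Vec 1)} {b : Vec 1 → Vec 1} : RoughStage T 1 2 1 B b
  | overlap {d M : ℕ} {B : Set (Vec d)} {b : Vec d → Vec d} (hM : 1 ≤ M)
      (hL : LipPieces B b) (hO : OverlapLE M T B b) : RoughStage T d (d + 1) M B b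
  | monotone {d : ℕ} {B : Set (Vec d)} {b : Vec d → Vec d} (hS : SectionMonotone T B b) :
      RoughStage T d (d + 1) 1 B b

/-- All stages: the rough stages; families with the Taylor constants `A k` of order `k`, `k ≥ 1`;
*arbitrary* families in `ℝ^{d+1}`, at the exponent `1 + d/s d` for an admissible slope `s d`; all
the families that satisfy the estimate at the exponent `p` with the constants
`c ε d * M * δ^(-ε)` and the natural loss `δ^(-(d+1-p))`. -/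
inductive Stage (T : Set ℝ) (A : ℕ → ℝ) (c : ℝ → ℕ → ℝ≥0) (s : ℕ → ℝ) :
    (d : ℕ) → ℝ → ℝ≥0 → Set (Vec d) → (Vec d → Vec d) → Prop
  | rough {d : ℕ} {p : ℝ} {M : ℝ≥0} {B : Set (Vec d)} {b : Vec d → Vec d}
      (h : RoughStage T d p M B b) : Stage T A c s d p M B b
  | taylor {d : ℕ} {B : Set (Vec d)} {b : Vec d → Vec d} (h : ∀ k, 1 ≤ k → TaylorClass k (A k) B b) :
      Stage T A c s d (d + 1) 1 B b
  | any {d : ℕ} {B : Set (Vec d)} {b : Vec d → Vec d} (h : Slope d (s d)) :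
      Stage T A c s d (1 + d / s d) 1 B b
  | estimate {d : ℕ} {p : ℝ} {M : ℝ≥0} {B : Set (Vec d)} {b : Vec d → Vec d} (hp : 1 ≤ p)
      (hp' : p ≤ d + 1) (h : ∀ ε : ℝ, 0 < ε → ∀ δ : ℝ, 0 < δ → δ < 1 → Estimate T δ 1 p
        (c ε d * M * ENNReal.ofReal (δ ^ (-ε)) * ENNReal.ofReal (δ ^ (-((d : ℝ) + 1 - p)))) B b) :
      Stage T A c s d p M B b

/-- The two components of the vector `v` in the orthogonal splitting `Φ`. -/
noncomputable def split {d d1 d2 : ℕ} (Φ : Vec d ≃ₗᵢ[ℝ] WithLp 2 (Vec d1 × Vec d2)) (v : Vec d) :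
    Vec d1 × Vec d2 := WithLp.ofLp (Φ v)

/-- The measurable family `b` on `B` is the skew product of the family `b1` on `B1` and of the
families `b2 v` on `B2 v`, `v ∈ B1`, for the orthogonal splitting `Φ` of `ℝ^d`. -/
def IsSkew {d d1 d2 : ℕ} (Φ : Vec d ≃ₗᵢ[ℝ] WithLp 2 (Vec d1 × Vec d2)) (B : Set (Vec d))
    (B1 : Set (Vec d1)) (B2 : Vec d1 → Set (Vec d2)) (b : Vec d → Vec d) (b1 : Vec d1 → Vec d1)
    (b2 : Vec d1 → Vec d2 → Vec d2) : Prop :=
  MeasurableSet {z : Vec d1 × Vec d2 | z.1 ∈ B1 ∧ z.2 ∈ B2 z.1} ∧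
    Measurable (Function.uncurry b2) ∧ Family B b ∧
    ∀ v ∈ B, (split Φ v).1 ∈ B1 ∧ (split Φ v).2 ∈ B2 (split Φ v).1 ∧
      split Φ (b v) = (b1 (split Φ v).1, b2 (split Φ v).1 (split Φ v).2)

/-- Towers over a class `𝒮` of stages; `p` is the exponent, `M` the multiplicity and `B` the set of
directions. -/
inductive Tower (𝒮 : (d : ℕ) → ℝ → ℝ≥0 → Set (Vec d) → (Vec d → Vec d) → Prop) :
    (d : ℕ) → ℝ → ℝ≥0 → Set (Vec d) → (Vec d → Vec d) → Prop
  | stage {d : ℕ} {p : ℝ} {M : ℝ≥0} {B : Set (Vec d)} {b : Vec d → Vec d} (hd : 1 ≤ d)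
      (hF : Family B b) (h : 𝒮 d p M B b) : Tower 𝒮 d p M B b
  | pieces {d : ℕ} {p : ℝ} {M : ℝ≥0} {b : Vec d → Vec d} (m : ℕ → ℝ≥0) (B : ℕ → Set (Vec d))
      (h : ∀ j, Tower 𝒮 d p (m j) (B j) b) (hM : ∑' j, (m j : ℝ≥0∞) ≤ M) :
      Tower 𝒮 d p M (⋃ j, B j) b
  | skew {d d1 d2 : ℕ} {p1 p2 : ℝ} {M1 M2 : ℝ≥0} {B : Set (Vec d)} {B1 : Set (Vec d1)}
      {B2 : Vec d1 → Set (Vec d2)} {b : Vec d → Vec d} {b1 : Vec d1 → Vec d1}
      {b2 : Vec d1 → Vec d2 → Vec d2} (Φ : Vec d ≃ₗᵢ[ℝ] WithLp 2 (Vec d1 × Vec d2))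
      (hd1 : 1 ≤ d1) (hd2 : 1 ≤ d2) (hM2 : 0 < M2)
      (h1 : Tower 𝒮 d1 p1 M1 B1 b1) (h2 : ∀ v ∈ B1, Tower 𝒮 d2 p2 M2 (B2 v) (b2 v))
      (hs : IsSkew Φ B B1 B2 b b1 b2) : Tower 𝒮 d (p1 + p2 - 1) (M1 * M2) B b

open Pool.Agent.TH426.Kt (KTower RegBase BaseBd Rough AllB LMb VanOff Pw win spl Lg)
open Pool.Agent.X91.KT (Gen Mu)

theorem toK {𝒮 𝓑 : (d : ℕ) → ℝ → ℝ≥0 → Set (Vec d) → (Vec d → Vec d) → Prop}
    (h0 : ∀ {d : ℕ} {p : ℝ} {M : ℝ≥0} {B : Set (Vec d)} {b : Vec d → Vec d}, 1 ≤ d → Family B b →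
      𝒮 d p M B b → 𝓑 d p M B b)
    {d : ℕ} {p : ℝ} {M : ℝ≥0} {B : Set (Vec d)} {b : Vec d → Vec d} (h : Tower 𝒮 d p M B b) :
    KTower 𝓑 d p M B b := by
  induction h with
  | stage hd hF h => exact KTower.base (h0 hd hF h)
  | pieces m B h hM ih => exact KTower.union m B ih hM
  | skew Φ hd1 hd2 hM2 h1 h2 hs ih1 ih2 =>
    obtain ⟨hB2, hb2, ⟨hB, hB1, hb⟩, hbB⟩ := hs
    exact KTower.skew Φ hd1 hd2 hM2 ih1 ih2 hB2 hb2 hB hB1 hb hbB

theorem rough_of {T : Set ℝ} {d : ℕ} {p : ℝ} {M : ℝ≥0} {B : Set (Vec d)} {b : Vec d → Vec d}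
    (hd : 1 ≤ d) (hF : Family B b) (h : RoughStage T d p M B b) : Rough T d p M B b := by
  obtain ⟨hB, hB1, hb⟩ := hF
  cases h with
  | planar =>
    have := Rough.planar (T := T) hB hB1 hb
    norm_num at this
    exact this
  | overlap hM hL hO => exact Rough.overlap hd hM hB hB1 hb hL hO
  | monotone hS => exact Rough.monotone hd hB hB1 hb hS

theorem gen_of {T : Set ℝ} {A : ℕ → ℝ} {c : ℝ → ℕ → ℝ≥0} {s : ℕ → ℝ} {d : ℕ} {p : ℝ} {M : ℝ≥0}
    {B : Set (Vec d)} {b : Vec d → Vec d} (hd : 1 ≤ d) (hF : Family B b)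
    (h : Stage T A c s d p M B b) : Gen T A c s d p M B b := by
  cases h with
  | rough h => exact Or.inl (AllB.rough (rough_of hd hF h))
  | taylor h => exact Or.inl (AllB.smooth hd hF.1 hF.2.1 hF.2.2 h)
  | any h => exact Or.inr ⟨hF, Or.inl ⟨h, rfl, rfl⟩⟩
  | estimate hp hp' h =>
    refine Or.inr ⟨hF, Or.inr ⟨hd, hp, hp', fun ε hε δ hδ hδ1 => ?_⟩⟩
    have h1 := h ε hε δ hδ hδ1
    rw [Pool.Agent.X91.KT.Mu_rpow hδ (by linarith)]
    exact h1

/-- The part on towers. -/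
theorem towers (d : ℕ) (ε : ℝ) (hε : 0 < ε) (A : ℕ → ℝ) (c : ℝ → ℕ → ℝ≥0) (s : ℕ → ℝ) :
    ∃ C : ℝ≥0, ∀ (T : Set ℝ) (p δ : ℝ) (M : ℝ≥0) (B : Set (Vec d)) (b b' : Vec d → Vec d),
      MeasurableSet T → 0 < δ → δ < 1 → Tower (Stage T A c s) d p M B b →
      (∀ v ∈ B, ‖b' v - b v‖ ≤ δ) → Estimate T δ 1 p
        (C * M * ENNReal.ofReal (δ ^ (-ε)) * ENNReal.ofReal (δ ^ (-((d : ℝ) + 1 - p)))) B b' := by
  have hε' : 0 < ε / ((d : ℝ) + 1) := by positivity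
  obtain ⟨c', hc', hbd⟩ := Pool.Agent.X91.KT.gen_bd A c s (ε / ((d : ℝ) + 1)) hε'
  set C : ℝ≥0∞ := Pool.Agent.TH426.Kt.cb d ^ ((d : ℝ) + 1) *
    Pool.Agent.TH426.Kt.cc c' (Pool.Agent.TH426.Kt.KK 1) d with hC
  have hCt : C ≠ ∞ := ENNReal.mul_ne_top
    (ENNReal.rpow_ne_top_of_nonneg (by positivity) (Pool.Agent.TH426.Kt.cb_ne_top d))
    (Pool.Agent.TH426.Kt.cc_ne_top hc' (Pool.Agent.TH426.Kt.KK_ne_top zero_le_one) d)
  refine ⟨C.toNNReal, ?_⟩
  intro T p δ M B b b' hT hδ hδ1 ht hbb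
  rcases B.eq_empty_or_nonempty with hne | hne
  · rw [hne]
    intro f _ _
    simp
  have hP1 := Pool.Agent.TH426.Kt.one_le_Pw hε' hδ hδ1
  have hk := toK (𝓑 := Gen T A c s) (fun hd hF h => gen_of hd hF h) ht
  have hpe := hk.expo (Pool.Agent.X91.KT.gen_reg T A c s) hne
  have key := Pool.Agent.X91.KT.tower_lmb' (Pool.Agent.X91.KT.gen_reg T A c s) hδ hδ1 hT hc'
    (Λ := Pw (ε / ((d : ℝ) + 1)) δ) (μ := Mu δ) (zero_lt_one.trans_le hP1).ne'
    (Pool.Agent.TH426.Kt.Pw_ne_top _ _) (Pool.Agent.X91.KT.Mu_ne_zero hδ)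
    (Pool.Agent.X91.KT.Mu_ne_top δ) (fun k => hbd T δ k hT hδ hδ1) hk hbb
  intro f hf hfT
  refine (key f hf hfT).trans (mul_le_mul_left ?_ _)
  rw [Pool.Agent.X91.KT.Mu_rpow hδ (by linarith [hpe.2]), ENNReal.coe_toNNReal hCt]
  have h2 : Pw (ε / ((d : ℝ) + 1)) δ ^ d ≤ ENNReal.ofReal (δ ^ (-ε)) := by
    unfold Pw
    rw [← ENNReal.ofReal_pow (by positivity)]
    apply ENNReal.ofReal_le_ofReal
    rw [← Real.rpow_natCast, ← Real.rpow_mul hδ.le]
    apply Real.rpow_le_rpow_of_exponent_ge hδ hδ1.le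
    have : ε / ((d : ℝ) + 1) * d ≤ ε := by
      rw [div_mul_eq_mul_div, div_le_iff₀ (by positivity)]
      nlinarith
    linarith
  gcongr

theorem two (d1 d2 : ℕ) (hd1 : 1 ≤ d1) (hd2 : 1 ≤ d2) (q ε : ℝ)
    (hq : q < ((d1 : ℝ) + d2 + 4) / 2) (hε : 0 < ε) :
    ∃ p : ℝ, q < p ∧ p ≤ ((d1 : ℝ) + d2 + 4) / 2 ∧ ∃ C : ℝ≥0,
      ∀ (d : ℕ) (Φ : Vec d ≃ₗᵢ[ℝ] WithLp 2 (Vec d1 × Vec d2)) (δ : ℝ) (B : Set (Vec d))
        (B1 : Set (Vec d1)) (B2 : Vec d1 → Set (Vec d2)) (b b' : Vec d → Vec d)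
        (b1 : Vec d1 → Vec d1) (b2 : Vec d1 → Vec d2 → Vec d2), 0 < δ → δ < 1 →
        Family B1 b1 → (∀ v ∈ B1, Family (B2 v) (b2 v)) → IsSkew Φ B B1 B2 b b1 b2 →
        (∀ v ∈ B, ‖b' v - b v‖ ≤ δ) →
        Estimate univ δ 1 p (C * ENNReal.ofReal (δ ^ (-ε)) *
          ENNReal.ofReal (δ ^ (-((d : ℝ) + 1 - p)))) B b' := by
  obtain ⟨θ, h0, h1, h2⟩ : ∃ θ : ℝ, 0 < θ ∧ θ < 1 / 2 ∧ 2 * θ < ((d1 : ℝ) + d2 + 4) / 2 - q := by
    refine ⟨min (1 / 4) ((((d1 : ℝ) + d2 + 4) / 2 - q) / 4), lt_min (by norm_num) (by linarith),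
      lt_of_le_of_lt (min_le_left _ _) (by norm_num), ?_⟩
    have := min_le_right (1 / 4 : ℝ) ((((d1 : ℝ) + d2 + 4) / 2 - q) / 4)
    linarith
  set s : ℕ → ℝ := fun m => 2 * (m : ℝ) / ((m : ℝ) + 1 - 2 * θ) with hs
  set e : ℕ → ℝ := fun m => if m = 1 then 2 else ((m : ℝ) + 3) / 2 - θ with he
  have hsl : ∀ m : ℕ, 2 ≤ m → Slope m (s m) ∧ 1 + (m : ℝ) / s m = ((m : ℝ) + 3) / 2 - θ := by
    intro m hm
    have hm' : (2 : ℝ) ≤ m := by exact_mod_cast hm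
    have h3 : 0 < (m : ℝ) + 1 - 2 * θ := by linarith
    refine ⟨Or.inl ⟨hm, ?_⟩, ?_⟩
    · simp only [hs]
      apply div_lt_div_of_pos_left (by linarith) h3 (by linarith)
    · simp only [hs]
      field_simp
      ring
  have hst : ∀ (m : ℕ) (B : Set (Vec m)) (b : Vec m → Vec m), 1 ≤ m → Family B b →
      Tower (Stage univ (fun _ => 0) (fun _ _ => 0) s) m (e m) 1 B b := by
    intro m B b hm hF
    rcases Nat.lt_or_ge 1 m with hm2 | hm2
    · obtain ⟨h3, h4⟩ := hsl m hm2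
      have h5 : e m = 1 + (m : ℝ) / s m := by
        simp only [he]
        rw [if_neg (by omega), h4]
      rw [h5]
      exact Tower.stage hm hF (Stage.any h3)
    · obtain rfl : m = 1 := by omega
      have h5 : e 1 = 2 := by simp [he]
      rw [h5]
      exact Tower.stage hm hF (Stage.rough RoughStage.planar)
  have hle : ∀ m : ℕ, 1 ≤ m → ((m : ℝ) + 3) / 2 - θ ≤ e m ∧ e m ≤ ((m : ℝ) + 3) / 2 := by
    intro m hm
    simp only [he]
    split_ifs with h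
    · subst h
      norm_num
      linarith
    · constructor <;> linarith
  obtain ⟨C, hC⟩ := towers (d1 + d2) ε hε (fun _ => 0) (fun _ _ => 0) s
  obtain ⟨a1, a2⟩ := hle d1 hd1
  obtain ⟨a3, a4⟩ := hle d2 hd2
  refine ⟨e d1 + e d2 - 1, by linarith, by linarith, C, ?_⟩
  intro d Φ δ B B1 B2 b b' b1 b2 hδ hδ1 hF1 hF2 hsk hbb
  have hdd := Pool.Agent.TH426.Kt.dim_eq Φ
  subst hdd
  have := hC univ (e d1 + e d2 - 1) δ (1 * 1) B b b' MeasurableSet.univ hδ hδ1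
    (Tower.skew Φ hd1 hd2 one_pos (hst d1 B1 b1 hd1 hF1)
      (fun v hv => hst d2 (B2 v) (b2 v) hd2 (hF2 v hv)) hsk) hbb
  simpa using this

/-- The composition theorem with the constant `K`: a skew product of a family that satisfies the
`L^p1 → L^(l p1)` estimate with the constant `C1` and of families that satisfy the
`L^p2 → L^(l p2)` estimate with the constant `C2`, and every family at distance at most `δ` from it,
satisfies the `L^p → L^(l p)` estimate, `p = p1 + p2 - 1`, with the constant `K C1 C2`. -/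
def Composition (d1 d2 : ℕ) (l p1 p2 : ℝ) (K : ℝ≥0) : Prop :=
  ∀ (d : ℕ) (Φ : Vec d ≃ₗᵢ[ℝ] WithLp 2 (Vec d1 × Vec d2)) (T : Set ℝ) (δ : ℝ)
    (C1 C2 : ℝ≥0) (B : Set (Vec d)) (B1 : Set (Vec d1)) (B2 : Vec d1 → Set (Vec d2))
    (b b' : Vec d → Vec d) (b1 : Vec d1 → Vec d1) (b2 : Vec d1 → Vec d2 → Vec d2),
    MeasurableSet T → 0 < δ → δ < 1 → 0 < C2 → Family B1 b1 →
    (∀ v ∈ B1, Family (B2 v) (b2 v)) → IsSkew Φ B B1 B2 b b1 b2 →
    (∀ v ∈ B, ‖b' v - b v‖ ≤ δ) → Estimate T δ l p1 C1 B1 b1 →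
    (∀ v ∈ B1, Estimate T δ l p2 C2 (B2 v) (b2 v)) →
    Estimate T δ l (p1 + p2 - 1) (K * C1 * C2 : ℝ≥0) B b'

/-- The maximal estimate at the exponent `p`, with the constant `C * M`, the loss `δ^(-ε)` and the
natural loss `δ^(-(d+1-p))`, for all towers with the stages `Stage T A c s`, multiplicity `M` and
exponent `p`, and for all families at distance at most `δ` from them. -/
def TowerBound (d : ℕ) (ε : ℝ) (A : ℕ → ℝ) (c : ℝ → ℕ → ℝ≥0) (s : ℕ → ℝ) (C : ℝ≥0) : Prop :=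
  ∀ (T : Set ℝ) (p δ : ℝ) (M : ℝ≥0) (B : Set (Vec d)) (b b' : Vec d → Vec d),
    MeasurableSet T → 0 < δ → δ < 1 → Tower (Stage T A c s) d p M B b →
    (∀ v ∈ B, ‖b' v - b v‖ ≤ δ) → Estimate T δ 1 p
      (C * M * ENNReal.ofReal (δ ^ (-ε)) * ENNReal.ofReal (δ ^ (-((d : ℝ) + 1 - p)))) B b'

/-- The maximal estimate at the exponent `p`, with the constant `C`, the loss `δ^(-ε)` and the
natural loss `δ^(-(d+1-p))`, for the skew products of an *arbitrary* measurable family in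
`ℝ^{d1+1}` and of *arbitrary* measurable families in `ℝ^{d2+1}` (and for all families at distance
at most `δ` from them). -/
def ArbitraryFactors (d1 d2 : ℕ) (ε p : ℝ) (C : ℝ≥0) : Prop :=
  ∀ (d : ℕ) (Φ : Vec d ≃ₗᵢ[ℝ] WithLp 2 (Vec d1 × Vec d2)) (δ : ℝ) (B : Set (Vec d))
    (B1 : Set (Vec d1)) (B2 : Vec d1 → Set (Vec d2)) (b b' : Vec d → Vec d)
    (b1 : Vec d1 → Vec d1) (b2 : Vec d1 → Vec d2 → Vec d2), 0 < δ → δ < 1 →
    Family B1 b1 → (∀ v ∈ B1, Family (B2 v) (b2 v)) → IsSkew Φ B B1 B2 b b1 b2 →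
    (∀ v ∈ B, ‖b' v - b v‖ ≤ δ) →
    Estimate univ δ 1 p (C * ENNReal.ofReal (δ ^ (-ε)) *
      ENNReal.ofReal (δ ^ (-((d : ℝ) + 1 - p)))) B b'

/-- The maximal estimate with the loss `(1 + log (1/δ))^d` for all towers with rough stages. -/
def RoughTowerBound (d : ℕ) (C : ℝ≥0) : Prop :=
  ∀ (T : Set ℝ) (p δ : ℝ) (M : ℝ≥0) (B : Set (Vec d)) (b b' : Vec d → Vec d), MeasurableSet T →
    0 < δ → δ < 1 → Tower (RoughStage T) d p M B b → (∀ v ∈ B, ‖b' v - b v‖ ≤ δ) →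
    Estimate T δ 1 p (C * M * ENNReal.ofReal (1 + Real.log (1 / δ)) ^ d) B b'

/-- **Composition of Kakeya maximal estimates; towers; skew products of arbitrary families.**
In the third part `(d1 + d2 + 4)/2 = (n + 3)/2`, `n = d1 + d2 + 1`. -/
theorem result :
    (∀ (d1 d2 : ℕ) (l p1 p2 : ℝ), 1 ≤ l → 1 ≤ p1 → 1 ≤ p2 →
      ∃ K : ℝ≥0, Composition d1 d2 l p1 p2 K) ∧
    (∀ (d : ℕ) (ε : ℝ), 0 < ε → ∀ (A : ℕ → ℝ) (c : ℝ → ℕ → ℝ≥0) (s : ℕ → ℝ),
      ∃ C : ℝ≥0, TowerBound d ε A c s C) ∧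
    (∀ (d1 d2 : ℕ), 1 ≤ d1 → 1 ≤ d2 → ∀ q ε : ℝ, q < ((d1 : ℝ) + d2 + 4) / 2 → 0 < ε →
      ∃ p : ℝ, q < p ∧ p ≤ ((d1 : ℝ) + d2 + 4) / 2 ∧ ∃ C : ℝ≥0, ArbitraryFactors d1 d2 ε p C) ∧
    (∀ d : ℕ, ∃ C : ℝ≥0, RoughTowerBound d C) := by
  refine ⟨?_, ?_, ?_, ?_⟩
  · intro d1 d2 l p1 p2 hl hp1 hp2
    have hK := Pool.Agent.TH426.Kt.Kc_ne_top d1 d2 (l := l) (by linarith) hp1 hp2
    refine ⟨(Pool.Agent.TH426.Kt.Kc d1 d2 l p1 p2).toNNReal, ?_⟩
    intro d Φ T δ C1 C2 B B1 B2 b b' b1 b2 hT hδ hδ1 hC2 hF1 hF2 hs hbb h1 h2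
    obtain ⟨hB2, hb2, ⟨hB, hB1, hb⟩, hbB⟩ := hs
    have key := Pool.Agent.TH426.Kt.composition Φ hδ hδ1 hT hl hp1 hp2 (C1 := C1) (C2 := C2)
      (by exact_mod_cast hC2.ne') ENNReal.coe_ne_top hF1.1 hF1.2.1 hB2 (fun v hv => (hF2 v hv).2.1)
      hB hB1 hb hF1.2.2 hb2 hbB hbb h1 h2
    rw [ENNReal.coe_mul, ENNReal.coe_mul, ENNReal.coe_toNNReal hK, mul_assoc]
    exact key
  · intro d ε hε A c s
    exact towers d ε hε A c s
  · intro d1 d2 hd1 hd2 q ε hq hε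
    exact two d1 d2 hd1 hd2 q ε hq hε
  · intro d
    set C : ℝ≥0∞ := Pool.Agent.TH426.Kt.cb d ^ ((d : ℝ) + 1) *
      Pool.Agent.TH426.Kt.cc Pool.Agent.TH426.Kt.c0 (Pool.Agent.TH426.Kt.KK 1) d with hC
    have hCt : C ≠ ∞ := ENNReal.mul_ne_top
      (ENNReal.rpow_ne_top_of_nonneg (by positivity) (Pool.Agent.TH426.Kt.cb_ne_top d))
      (Pool.Agent.TH426.Kt.cc_ne_top Pool.Agent.TH426.Kt.c0_ne_top
        (Pool.Agent.TH426.Kt.KK_ne_top zero_le_one) d)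
    refine ⟨C.toNNReal, ?_⟩
    intro T p δ M B b b' hT hδ hδ1 ht hbb
    have hP1 := Pool.Agent.TH426.Kt.one_le_Lg hδ hδ1
    have hk := toK (𝓑 := Rough T) (fun hd hF h => rough_of hd hF h) ht
    have key := Pool.Agent.TH426.Kt.tower_lmb (Pool.Agent.TH426.Kt.rough_reg T) hδ hδ1 hT
      Pool.Agent.TH426.Kt.c0_ne_top (Λ := Lg δ) (zero_lt_one.trans_le hP1).ne'
      (Pool.Agent.TH426.Kt.Lg_ne_top δ)
      (fun k => Pool.Agent.TH426.Kt.rough_bd hT hδ hδ1 k) hk hbb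
    rw [ENNReal.coe_toNNReal hCt]
    exact key

end Pool.Agent.Results.MP_5168f5_an.SkewProducts
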