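import Pool.Agent.X91.TY.Low

set_option autoImplicit false

/-!
# MP_5168f5: typical families of lines and the Kakeya maximal conjecture: a zero-one law

By measurable selection the Kakeya maximal function is the supremum over all families of lines (one
line in each direction) of the maximal functions of the single families.  Here the families are
the continuous maps `b` from the closed unit ball of `ℝ^{n-1}` to `ℝ^{n-1}`; the line number `v`,
`|v| ≤ 1`, is `{(b v + s v, s) : s ∈ ℝ}`, with direction `(v, 1)`, and `lineMax δ b f v` is the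
supremum of the averages of `|f|` over the `δ`-tubes of length one with axis on this line.  They form
the complete metric space `Families (n-1)` (uniform convergence); a property is *typical* if it
holds on a comeager set of families (`∀ᶠ b in residual _`).  For every `n ≥ 2`:

* **Zero-one law.**  Let `1 ≤ p < ∞` and let `Φ` be ANY positive gauge on `(0, 1)`.  Either the full
  Kakeya maximal function satisfies `‖f*_δ‖_p^p ≤ C Φ(δ) ‖f‖_p^p` (and then so do all families,
  uniformly), or for the typical family `b` there is a single function `f ∈ L^p` with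
  `sup_δ ‖M_{δ,b} f‖_p^p / Φ(δ) = ∞`.  So the uniformity in the family and in the function is
  automatic, already on a non-meager set of families.
* **Typical families are universal.**  For the typical family `b` the Kakeya maximal conjecture in
  `ℝ^n` (all functions, all tubes) is equivalent to its assertion for the single family `b`; the same
  for the estimates with the loss `δ^(-κ-ε)` in `L^p`, for all `p ≥ 1` and `κ`.
* **Good scales.**  Let `h(δ) → ∞` as `δ → 0`, arbitrarily slowly.  For the typical family there are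
  arbitrarily small `δ` at which it satisfies the conjectured estimate, for all `f`, with the
  constant `h(δ) (1 + log (1/δ))^(n-1)` for `p = n`, and with the constant `h(δ)` for `p > n`.
* **Bad scales.**  For the typical family, for every `p ≥ 1`, there are arbitrarily small `δ` at which
  its best constant is larger than `(1 + log (1/δ))^(n-1) / h(δ)`.
-/

open MeasureTheory Set ENNReal NNReal Metric Filter Topology

namespace Pool.Agent.Results.MP_5168f5_an.TypicalFamilies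

/-- The closed cylinder of length `1` and radius `δ` with centre `a` and axis direction `e`. -/
def tube {n : ℕ} (δ : ℝ) (a e : EuclideanSpace ℝ (Fin n)) : Set (EuclideanSpace ℝ (Fin n)) :=
  {y | |inner ℝ (y - a) e| ≤ 1 / 2 ∧ ‖(y - a) - (inner ℝ (y - a) e : ℝ) • e‖ ≤ δ}

/-- The Kakeya maximal function. -/
noncomputable def kakeyaMax {n : ℕ} (δ : ℝ) (f : EuclideanSpace ℝ (Fin n) → ℝ)
    (e : EuclideanSpace ℝ (Fin n)) : ℝ≥0∞ :=
  ⨆ a : EuclideanSpace ℝ (Fin n), (volume (tube δ a e))⁻¹ * ∫⁻ y in tube δ a e, ‖f y‖ₑ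

/-- Surface measure of the unit sphere. -/
noncomputable abbrev surf (n : ℕ) : Measure (sphere (0 : EuclideanSpace ℝ (Fin n)) 1) :=
  (volume : Measure (EuclideanSpace ℝ (Fin n))).toSphere

/-- `K` is a constant for the Kakeya maximal estimate in `L^p(ℝ^n)`, for the width `δ`. -/
def MaximalBound (n : ℕ) (p δ : ℝ) (K : ℝ≥0∞) : Prop :=
  ∀ f : EuclideanSpace ℝ (Fin n) → ℝ, AEMeasurable f volume →
    ∫⁻ e, kakeyaMax δ f e ^ p ∂(surf n) ≤ K * ∫⁻ y, ‖f y‖ₑ ^ p

/-- The Kakeya maximal estimates in `L^p(ℝ^n)` with the loss `δ^(-κ-ε)`, for all `ε > 0`.  The Kakeya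
maximal conjecture in `ℝ^n` is `MaximalEstimates n n 0`. -/
def MaximalEstimates (n : ℕ) (p κ : ℝ) : Prop :=
  ∀ ε : ℝ, 0 < ε → ∃ C : ℝ, ∀ δ : ℝ, 0 < δ → δ < 1 →
    MaximalBound n p δ (ENNReal.ofReal (C * δ ^ (-(κ + ε))))

/-- Euclidean space `ℝ^d`. -/
abbrev Vec (d : ℕ) : Type := EuclideanSpace ℝ (Fin d)

/-- Euclidean space `ℝ^{d+1}`, written as `ℝ^d × ℝ` with the Euclidean norm. -/
abbrev Space (d : ℕ) : Type := WithLp 2 (Vec d × ℝ)

/-- The unit vector `(v, 1)/√(1+|v|²)`. -/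
noncomputable def dir {d : ℕ} (v : Vec d) : Space d :=
  (√(1 + ‖v‖ ^ 2))⁻¹ • WithLp.toLp 2 (v, (1:ℝ))

/-- The closed tube of length `1` and radius `δ` with centre `a` and axis direction `e`. -/
def lineTube {d : ℕ} (δ : ℝ) (e a : Space d) : Set (Space d) :=
  {y | |inner ℝ (y - a) e| ≤ 1 / 2 ∧ ‖(y - a) - (inner ℝ (y - a) e : ℝ) • e‖ ≤ δ}

/-- The continuous families of lines in `ℝ^{d+1}` with directions `(v, 1)`, `|v| ≤ 1`, with the metric
of uniform convergence. -/
abbrev Families (d : ℕ) : Type := C(closedBall (0 : Vec d) 1, Vec d)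

/-- The map of the family, extended by zero; only its values on the ball matter. -/
noncomputable def toMap {d : ℕ} (b : Families d) (v : Vec d) : Vec d :=
  open Classical in if h : v ∈ closedBall (0 : Vec d) 1 then b ⟨v, h⟩ else 0

/-- The point of height `s` on the line number `v`. -/
noncomputable def linePt {d : ℕ} (b : Families d) (v : Vec d) (s : ℝ) : Space d :=
  WithLp.toLp 2 (toMap b v + s • v, s)

/-- Supremum of the averages of `|f|` over the `δ`-tubes with axis on the line number `v`. -/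
noncomputable def lineMax {d : ℕ} (δ : ℝ) (b : Families d) (f : Space d → ℝ) (v : Vec d) : ℝ≥0∞ :=
  ⨆ s : ℝ, (volume (lineTube δ (dir v) (linePt b v s)))⁻¹ *
    ∫⁻ y in lineTube δ (dir v) (linePt b v s), ‖f y‖ₑ

/-- `K` is a constant for the maximal estimate in `L^p` of the single family `b`, for the width
`δ`. -/
def FamilyBound {d : ℕ} (p δ : ℝ) (K : ℝ≥0∞) (b : Families d) : Prop :=
  ∀ f : Space d → ℝ, Measurable f →
    ∫⁻ v in closedBall (0 : Vec d) 1, lineMax δ b f v ^ p ≤ K * ∫⁻ y, ‖f y‖ₑ ^ p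

/-- The maximal estimates in `L^p` of the single family `b` with the loss `δ^(-κ-ε)`, for all
`ε > 0`. -/
def FamilyEstimates {d : ℕ} (p κ : ℝ) (b : Families d) : Prop :=
  ∀ ε : ℝ, 0 < ε → ∃ C : ℝ, ∀ δ : ℝ, 0 < δ → δ < 1 →
    FamilyBound p δ (ENNReal.ofReal (C * δ ^ (-(κ + ε)))) b

/-- There is one function `f` in the unit ball of `L^p` such that `‖M_{δ,b} f‖_p^p` is not
`O(Φ(δ))`. -/
def Unbounded {d : ℕ} (p : ℝ) (Φ : ℝ → ℝ) (b : Families d) : Prop :=
  ∃ f : Space d → ℝ, Measurable f ∧ ∫⁻ y, ‖f y‖ₑ ^ p ≤ 1 ∧ ∀ M : ℝ, ∃ δ : ℝ, 0 < δ ∧ δ < 1 ∧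
    ENNReal.ofReal (M * Φ δ) < ∫⁻ v in closedBall (0 : Vec d) 1, lineMax δ b f v ^ p

/-- `P` holds at arbitrarily small scales. -/
def AtSmallScales (P : ℝ → Prop) : Prop :=
  ∀ δ₀ : ℝ, 0 < δ₀ → ∃ δ : ℝ, 0 < δ ∧ δ < 1 ∧ δ < δ₀ ∧ P δ

/-- The loss: `(1 + log (1/δ))^(n-1)` at the critical exponent `p = n`, none for `p > n`. -/
noncomputable def loss (n : ℕ) (p δ : ℝ) : ℝ :=
  if p = n then (1 + Real.log (1 / δ)) ^ (n - 1) else 1

/-- `P` holds for the typical continuous family: on a comeager set of families. -/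
def Typically (d : ℕ) (P : Families d → Prop) : Prop := ∀ᶠ b in residual (Families d), P b

/-- Either the full maximal function and all families satisfy the estimate with the gauge `Φ`,
uniformly, or the typical family violates it with a single function. -/
def ZeroOneLaw (n : ℕ) : Prop :=
  ∀ (p : ℝ) (Φ : ℝ → ℝ), 1 ≤ p → (∀ δ : ℝ, 0 < δ → δ < 1 → 0 < Φ δ) →
    (∃ C : ℝ, ∀ δ : ℝ, 0 < δ → δ < 1 → MaximalBound n p δ (ENNReal.ofReal (C * Φ δ)) ∧
      ∀ b : Families (n - 1), FamilyBound p δ (ENNReal.ofReal (C * Φ δ)) b) ∨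
    Typically (n - 1) (Unbounded p Φ)

/-- For the typical family the maximal estimates for all functions and all tubes are equivalent
to the maximal estimates for this family; some family has this property at `p = n`, `κ = 0`. -/
def TypicalIsUniversal (n : ℕ) : Prop :=
  (∀ p κ : ℝ, 1 ≤ p →
    Typically (n - 1) fun b => (MaximalEstimates n p κ ↔ FamilyEstimates p κ b)) ∧
  ∃ b : Families (n - 1), MaximalEstimates n n 0 ↔ FamilyEstimates n 0 b

/-- For `p ≥ n` the typical family has arbitrarily small scales at which it satisfies the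
maximal estimate with the constant `h(δ) loss`. -/
def GoodScales (n : ℕ) : Prop :=
  ∀ p : ℝ, (n : ℝ) ≤ p → ∀ h : ℝ → ℝ, Tendsto h (𝓝[>] 0) atTop →
    Typically (n - 1) fun b =>
      AtSmallScales fun δ => FamilyBound p δ (ENNReal.ofReal (h δ * loss n p δ)) b

/-- For `p ≥ 1` the typical family has arbitrarily small scales at which its best constant is
larger than `(1 + log (1/δ))^(n-1) / h(δ)`. -/
def BadScales (n : ℕ) : Prop :=
  ∀ p : ℝ, 1 ≤ p → ∀ h : ℝ → ℝ, Tendsto h (𝓝[>] 0) atTop →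
    Typically (n - 1) fun b => AtSmallScales fun δ =>
      ¬ FamilyBound p δ (ENNReal.ofReal ((1 + Real.log (1 / δ)) ^ (n - 1) / h δ)) b

open Pool.Agent.X91.TY (JJ kE lm ex Bad)

variable {d : ℕ}

theorem energy_eq (δ p : ℝ) (b : Families d) (f : Space d → ℝ) :
    ∫⁻ v in closedBall (0 : Vec d) 1, lineMax δ b f v ^ p = JJ δ p (ex b) (fun y => ‖f y‖ₑ) := rfl

theorem fam_iff {p δ : ℝ} (hp : 0 < p) {K : ℝ≥0∞} (hK : K ≠ 0) (b : Families d) :
    FamilyBound p δ K b ↔ ∀ F : Space d → ℝ≥0∞, Measurable F →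
      JJ δ p (ex b) F ≤ K * ∫⁻ y, F y ^ p := by
  constructor
  · intro h F hF
    exact Pool.Agent.X91.TY.to_real hp hK (fun f hf => h f hf) hF
  · intro h f hf
    exact h _ hf.enorm

theorem maxb_of {p δ : ℝ} {K : ℝ≥0∞}
    (h : ∀ G : EuclideanSpace ℝ (Fin (d + 1)) → ℝ≥0∞, Measurable G →
      ∫⁻ e : sphere (0 : EuclideanSpace ℝ (Fin (d + 1))) 1, kE δ G e ^ p ∂(surf (d + 1)) ≤
        K * ∫⁻ y, G y ^ p) : MaximalBound (d + 1) p δ K := by
  intro f hf
  have h1 := h (fun y => ‖hf.mk f y‖ₑ) hf.measurable_mk.enorm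
  have h2 : ∫⁻ y, ‖hf.mk f y‖ₑ ^ p = ∫⁻ y, ‖f y‖ₑ ^ p := by
    apply lintegral_congr_ae
    filter_upwards [hf.ae_eq_mk] with y hy
    rw [hy]
  have h3 : ∀ e : EuclideanSpace ℝ (Fin (d + 1)),
      kE δ (fun y => ‖hf.mk f y‖ₑ) e = kakeyaMax δ f e := by
    intro e
    unfold kE kakeyaMax
    congr 1
    ext a
    congr 1
    change _ = ∫⁻ y in Pool.Agent.X91.TY.tubeE δ e a, ‖f y‖ₑ
    apply lintegral_congr_ae
    filter_upwards [ae_restrict_of_ae hf.ae_eq_mk] with y hy
    rw [hy]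
  rw [h2] at h1
  simp only [h3] at h1
  exact h1

theorem of_maxb {p δ : ℝ} (hp : 0 < p) {K : ℝ≥0∞} (hK : K ≠ 0)
    (h : MaximalBound (d + 1) p δ K) :
    ∀ G : EuclideanSpace ℝ (Fin (d + 1)) → ℝ≥0∞, Measurable G →
      ∫⁻ e : sphere (0 : EuclideanSpace ℝ (Fin (d + 1))) 1, kE δ G e ^ p ∂(surf (d + 1)) ≤
        K * ∫⁻ y, G y ^ p := by
  intro G hG
  rcases eq_or_ne (∫⁻ y, G y ^ p) ∞ with hinf | hfin
  · rw [hinf, ENNReal.mul_top hK]
    exact le_top
  have hae : ∀ᵐ y, G y < ∞ := by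
    filter_upwards [ae_lt_top (hG.pow_const p) hfin] with y hy
    by_contra hcon
    rw [not_lt, top_le_iff] at hcon
    rw [hcon, ENNReal.top_rpow_of_pos hp] at hy
    exact lt_irrefl _ hy
  have he : ∀ᵐ y, ‖(G y).toReal‖ₑ = G y := by
    filter_upwards [hae] with y hy
    rw [Real.enorm_of_nonneg ENNReal.toReal_nonneg, ENNReal.ofReal_toReal hy.ne]
  have h1 := h (fun y => (G y).toReal) hG.ennreal_toReal.aemeasurable
  have h2 : ∫⁻ y, ‖(G y).toReal‖ₑ ^ p = ∫⁻ y, G y ^ p := by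
    apply lintegral_congr_ae
    filter_upwards [he] with y hy
    rw [hy]
  have h3 : ∀ e : EuclideanSpace ℝ (Fin (d + 1)),
      kakeyaMax δ (fun y => (G y).toReal) e = kE δ G e := by
    intro e
    unfold kE kakeyaMax
    congr 1
    ext a
    congr 1
    change _ = ∫⁻ y in Pool.Agent.X91.TY.tubeE δ e a, G y
    apply lintegral_congr_ae
    filter_upwards [ae_restrict_of_ae he] with y hy
    rw [hy]
  rw [h2] at h1
  simp only [h3] at h1
  exact h1

theorem rpow_two {p : ℝ} (hp : 0 ≤ p) : (2 : ℝ≥0∞) ^ p = ENNReal.ofReal (2 ^ p) := by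
  rw [← ENNReal.ofReal_rpow_of_nonneg (by norm_num) hp, ENNReal.ofReal_ofNat]

/-- The dichotomy. -/
theorem dichotomy (d : ℕ) {p : ℝ} {Φ : ℝ → ℝ} (hp : 1 ≤ p)
    (hΦ : ∀ δ : ℝ, 0 < δ → δ < 1 → 0 < Φ δ) :
    (∃ C : ℝ, ∀ δ : ℝ, 0 < δ → δ < 1 → MaximalBound (d + 1) p δ (ENNReal.ofReal (C * Φ δ)) ∧
      ∀ b : Families d, FamilyBound p δ (ENNReal.ofReal (C * Φ δ)) b) ∨
    ∀ᶠ b in residual (Families d), Unbounded p Φ b := by
  have hp0 : 0 < p := by linarith
  obtain ⟨N, hN⟩ := Pool.Agent.X91.TY.sphere_of_fam d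
  rcases Pool.Agent.X91.TY.zero_one (d := d) hp0 (fun δ => ENNReal.ofReal (Φ δ)) with
    ⟨C, hC⟩ | hbad
  · left
    refine ⟨(N + 1) * 2 ^ p * (C + 1), ?_⟩
    intro δ hδ hδ1
    have h0 := hΦ δ hδ hδ1
    have hK : ((C + 1 : ℕ) : ℝ≥0∞) * ENNReal.ofReal (Φ δ) =
        ENNReal.ofReal ((C + 1) * Φ δ) := by
      rw [ENNReal.ofReal_mul (by positivity)]
      congr 1
      rw [← ENNReal.ofReal_natCast]
      push_cast
      rfl
    have hfam : ∀ b : Vec d → Vec d, Measurable b → ∀ F : Space d → ℝ≥0∞, Measurable F →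
        JJ δ p b F ≤ ((C + 1 : ℕ) : ℝ≥0∞) * ENNReal.ofReal (Φ δ) * ∫⁻ y, F y ^ p := by
      intro b hb F hF
      refine (hC b hb δ hδ hδ1 F hF).trans ?_
      gcongr
      omega
    have h2p : (1 : ℝ) ≤ 2 ^ p := Real.one_le_rpow (by norm_num) hp0.le
    constructor
    · apply maxb_of
      intro G hG
      have h1 := hN δ p _ hδ hδ1 hp (by
        rw [hK, Ne, ENNReal.ofReal_eq_zero, not_le]
        positivity) hfam G hG
      refine h1.trans ?_
      gcongr ?_ * _
      rw [hK, rpow_two hp0.le, ← ENNReal.ofReal_natCast, ← ENNReal.ofReal_mul (by positivity),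
        ← ENNReal.ofReal_mul (by positivity)]
      apply ENNReal.ofReal_le_ofReal
      have h3 : 0 ≤ 2 ^ p * ((C + 1) * Φ δ) := by positivity
      nlinarith
    · intro b f hf
      have h1 := hfam (ex b) (Pool.Agent.X91.TY.measurable_ex b) _ hf.enorm
      refine h1.trans ?_
      gcongr ?_ * _
      rw [hK]
      apply ENNReal.ofReal_le_ofReal
      have h3 : 0 ≤ (C + 1) * Φ δ := by positivity
      have h4 : (0 : ℝ) ≤ N := Nat.cast_nonneg N
      have h5 : 1 ≤ (N + 1) * (2 : ℝ) ^ p := by nlinarith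
      nlinarith
  · right
    filter_upwards [hbad] with b hb
    obtain ⟨F, hF, hF1, hF2⟩ := Pool.Agent.X91.TY.one_function hp (fun δ hδ hδ1 => by
      rw [Ne, ENNReal.ofReal_eq_zero, not_le]
      exact hΦ δ hδ hδ1) (Pool.Agent.X91.TY.measurable_ex b) hb
    have hfin : ∫⁻ y, F y ^ p ≠ ∞ := ne_top_of_le_ne_top one_ne_top hF1
    have hae : ∀ᵐ y, F y < ∞ := by
      filter_upwards [ae_lt_top (hF.pow_const p) hfin] with y hy
      by_contra hcon
      rw [not_lt, top_le_iff] at hcon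
      rw [hcon, ENNReal.top_rpow_of_pos hp0] at hy
      exact lt_irrefl _ hy
    have he : ∀ᵐ y, ‖(F y).toReal‖ₑ = F y := by
      filter_upwards [hae] with y hy
      rw [Real.enorm_of_nonneg ENNReal.toReal_nonneg, ENNReal.ofReal_toReal hy.ne]
    refine ⟨fun y => (F y).toReal, hF.ennreal_toReal, ?_, ?_⟩
    · refine le_trans (le_of_eq ?_) hF1
      apply lintegral_congr_ae
      filter_upwards [he] with y hy
      rw [hy]
    · intro M
      obtain ⟨m, hm⟩ := exists_nat_ge M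
      obtain ⟨δ, hδ, hδ1, h1⟩ := hF2 m
      refine ⟨δ, hδ, hδ1, ?_⟩
      have h2 : ∀ v, lineMax δ b (fun y => (F y).toReal) v = lm δ (ex b) F v := by
        intro v
        change lm δ (ex b) (fun y => ‖(F y).toReal‖ₑ) v = _
        unfold lm Pool.Agent.X91.TY.av
        congr 1
        ext s
        congr 1
        apply lintegral_congr_ae
        filter_upwards [ae_restrict_of_ae he] with y hy
        rw [hy]
      simp only [h2]
      refine lt_of_le_of_lt ?_ h1
      rw [← ENNReal.ofReal_natCast, ← ENNReal.ofReal_mul (by positivity)]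
      apply ENNReal.ofReal_le_ofReal
      have := (hΦ δ hδ hδ1).le
      gcongr

theorem not_unbounded {p : ℝ} {Φ : ℝ → ℝ} {b : Families d} {C : ℝ}
    (h : ∀ δ : ℝ, 0 < δ → δ < 1 → FamilyBound p δ (ENNReal.ofReal (C * Φ δ)) b) :
    ¬ Unbounded p Φ b := by
  rintro ⟨f, hf, hf1, hM⟩
  obtain ⟨δ, hδ, hδ1, h1⟩ := hM C
  have h2 := h δ hδ hδ1 f hf
  refine absurd h1 (not_lt.2 (h2.trans ?_))
  calc ENNReal.ofReal (C * Φ δ) * ∫⁻ y, ‖f y‖ₑ ^ p ≤ ENNReal.ofReal (C * Φ δ) * 1 := by gcongr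
    _ = _ := mul_one _

theorem MaximalBound.mono {n : ℕ} {p δ : ℝ} {K K' : ℝ≥0∞} (h : MaximalBound n p δ K)
    (hK : K ≤ K') : MaximalBound n p δ K' := fun f hf => (h f hf).trans (by gcongr)

/-- Typical families are universal. -/
theorem universal (d : ℕ) {p : ℝ} (hp : 1 ≤ p) (κ : ℝ) :
    ∀ᶠ b in residual (Families d), (MaximalEstimates (d + 1) p κ ↔ FamilyEstimates p κ b) := by
  have hp0 : 0 < p := by linarith
  have hk : ∀ᶠ b in residual (Families d), ∀ k : ℕ,
      (∃ C : ℝ, ∀ δ : ℝ, 0 < δ → δ < 1 →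
        FamilyBound p δ (ENNReal.ofReal (C * δ ^ (-(κ + 1 / (k + 1))))) b) →
      ∃ C : ℝ, ∀ δ : ℝ, 0 < δ → δ < 1 →
        MaximalBound (d + 1) p δ (ENNReal.ofReal (C * δ ^ (-(κ + 1 / (k + 1))))) := by
    rw [eventually_countable_forall]
    intro k
    have hΦ : ∀ δ : ℝ, 0 < δ → δ < 1 → 0 < δ ^ (-(κ + 1 / ((k : ℝ) + 1))) :=
      fun δ hδ _ => Real.rpow_pos_of_pos hδ _
    rcases dichotomy d hp hΦ with ⟨C, hC⟩ | hbad
    · exact Eventually.of_forall fun b _ => ⟨C, fun δ hδ hδ1 => (hC δ hδ hδ1).1⟩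
    · filter_upwards [hbad] with b hb
      rintro ⟨C, hC⟩
      exact absurd hb (not_unbounded hC)
  filter_upwards [hk] with b hb
  constructor
  · intro h ε hε
    obtain ⟨C, hC⟩ := h ε hε
    refine ⟨2 ^ (d + 1) * (|C| + 1), fun δ hδ hδ1 => ?_⟩
    have hδ0 : 0 < δ ^ (-(κ + ε)) := Real.rpow_pos_of_pos hδ _
    have h1 : MaximalBound (d + 1) p δ (ENNReal.ofReal ((|C| + 1) * δ ^ (-(κ + ε)))) := by
      apply (hC δ hδ hδ1).mono
      apply ENNReal.ofReal_le_ofReal
      gcongr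
      linarith [le_abs_self C]
    have hK : ENNReal.ofReal ((|C| + 1) * δ ^ (-(κ + ε))) ≠ 0 := by
      rw [Ne, ENNReal.ofReal_eq_zero, not_le]
      positivity
    intro f hf
    rw [energy_eq]
    refine (Pool.Agent.X91.TY.fam_of_sphere hp0 (of_maxb hp0 hK h1) (ex b) hf.enorm).trans ?_
    gcongr ?_ * _
    have e1 : (2 ^ (d + 1) : ℝ≥0∞) = ENNReal.ofReal (2 ^ (d + 1)) := by
      rw [ENNReal.ofReal_pow (by norm_num)]; simp
    rw [e1, ← ENNReal.ofReal_mul (by positivity), mul_assoc]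
  · intro h ε hε
    obtain ⟨k, hk⟩ := exists_nat_one_div_lt hε
    obtain ⟨C, hC⟩ := hb k (h _ (by positivity))
    refine ⟨|C|, fun δ hδ hδ1 => (hC δ hδ hδ1).mono ?_⟩
    apply ENNReal.ofReal_le_ofReal
    calc C * δ ^ (-(κ + 1 / ((k : ℝ) + 1))) ≤ |C| * δ ^ (-(κ + 1 / ((k : ℝ) + 1))) := by
          have := Real.rpow_pos_of_pos hδ (-(κ + 1 / ((k : ℝ) + 1)))
          gcongr
          exact le_abs_self C
      _ ≤ |C| * δ ^ (-(κ + ε)) := by
          gcongr ?_ * ?_
          apply Real.rpow_le_rpow_of_exponent_ge hδ hδ1.le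
          linarith

theorem small_of_nat {P : ℝ → Prop} (h : ∀ m : ℕ, ∃ δ : ℝ, 0 < δ ∧ δ < 1 ∧ δ < 1 / (m + 1) ∧ P δ) :
    AtSmallScales P := by
  intro δ₀ hδ₀
  obtain ⟨m, hm⟩ := exists_nat_one_div_lt hδ₀
  obtain ⟨δ, h1, h2, h3, h4⟩ := h m
  exact ⟨δ, h1, h2, h3.trans hm, h4⟩

/-- **Typical families of lines and the Kakeya maximal conjecture: a zero-one law.** -/
theorem result (n : ℕ) (hn : 2 ≤ n) :
    ZeroOneLaw n ∧ TypicalIsUniversal n ∧ GoodScales n ∧ BadScales n := by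
  obtain ⟨d, rfl⟩ : ∃ d, n = d + 1 := ⟨n - 1, by omega⟩
  have hd : 1 ≤ d := by omega
  unfold ZeroOneLaw TypicalIsUniversal GoodScales BadScales Typically
  rw [Nat.add_sub_cancel]
  refine ⟨fun p Φ hp hΦ => dichotomy d hp hΦ, ⟨fun p κ hp => universal d hp κ, ?_⟩, ?_, ?_⟩
  · have h1 := universal d (p := ((d + 1 : ℕ) : ℝ)) (by push_cast; linarith [Nat.cast_nonneg (α := ℝ) d]) 0
    have h2 : Dense {b : Families d | MaximalEstimates (d + 1) ((d + 1 : ℕ) : ℝ) 0 ↔
        FamilyEstimates ((d + 1 : ℕ) : ℝ) 0 b} := dense_of_mem_residual h1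
    obtain ⟨b, hb⟩ := h2.nonempty
    exact ⟨b, hb⟩
  · intro p hp h hh
    have hp' : (d : ℝ) + 1 ≤ p := by push_cast at hp; exact hp
    filter_upwards [Pool.Agent.X91.TY.good_scales hd hp' hh] with b hb
    apply small_of_nat
    intro m
    obtain ⟨δ, h1, h2, h3, h4⟩ := hb m
    refine ⟨δ, h1, h2, h3, ?_⟩
    have e : loss (d + 1) p δ = Pool.Agent.X91.TY.loss d p δ := by
      unfold loss Pool.Agent.X91.TY.loss
      push_cast
      rfl
    rw [e]
    intro f hf
    exact h4 _ hf.enorm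
  · intro p hp h hh
    filter_upwards [Pool.Agent.X91.TY.bad_scales (d := d) hp hh] with b hb
    apply small_of_nat
    intro m
    obtain ⟨δ, h1, h2, h3, h0, F, hF, h4⟩ := hb m
    refine ⟨δ, h1, h2, h3, ?_⟩
    intro hcon
    have hlog : 0 ≤ Real.log (1 / δ) := Real.log_nonneg (by rw [le_div_iff₀ h1]; linarith)
    have hK : ENNReal.ofReal ((1 + Real.log (1 / δ)) ^ d / h δ) ≠ 0 := by
      rw [Ne, ENNReal.ofReal_eq_zero, not_le]
      positivity
    exact absurd h4 (not_lt.2 ((fam_iff (by linarith) hK b).1 hcon F hF))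

end Pool.Agent.Results.MP_5168f5_an.TypicalFamilies
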